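import Mathlib

set_option autoImplicit false

/-!
Best approximations: a lower bound for the denominators of good approximations of `log 2 / log 3`.
-/

namespace Pool.Agent.J6H8.Cls

/-- two consecutive convergents -/
theorem best {x y : ℝ} {q0 r0 q1 r1 : ℤ} (hq0 : 0 < q0)
    (hdet : q0 * r1 - q1 * r0 = 1 ∨ q0 * r1 - q1 * r0 = -1)
    (hsign : (0 < q0 * x - r0 * y ∧ q1 * x - r1 * y < 0) ∨ (q0 * x - r0 * y < 0 ∧ 0 < q1 * x - r1 * y))
    {q r : ℤ} (hq : 0 < q) (hq1 : q < q1) : |q0 * x - r0 * y| ≤ |q * x - r * y| := by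
  obtain ⟨D, hD⟩ : ∃ D, D = q0 * r1 - q1 * r0 := ⟨_, rfl⟩
  have hDD : D * D = 1 := by
    rcases hdet with h | h <;> rw [← hD] at h <;> rw [h] <;> norm_num
  obtain ⟨u, hu⟩ : ∃ u, u = D * (q * r1 - q1 * r) := ⟨_, rfl⟩
  obtain ⟨v, hv⟩ : ∃ v, v = D * (q0 * r - q * r0) := ⟨_, rfl⟩
  have e1 : q = u * q0 + v * q1 := by
    have : u * q0 + v * q1 = D * D * q := by rw [hu, hv, hD]; ring
    rw [this, hDD, one_mul]
  have e2 : r = u * r0 + v * r1 := by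
    have : u * r0 + v * r1 = D * D * r := by rw [hu, hv, hD]; ring
    rw [this, hDD, one_mul]
  have e3 : (q : ℝ) * x - r * y = u * (q0 * x - r0 * y) + v * (q1 * x - r1 * y) := by
    have e1' : (q : ℝ) = u * q0 + v * q1 := by exact_mod_cast e1
    have e2' : (r : ℝ) = u * r0 + v * r1 := by exact_mod_cast e2
    rw [e1', e2']; ring
  rw [e3]
  obtain ⟨E0, hE0⟩ : ∃ E0 : ℝ, E0 = q0 * x - r0 * y := ⟨_, rfl⟩
  obtain ⟨E1, hE1⟩ : ∃ E1 : ℝ, E1 = q1 * x - r1 * y := ⟨_, rfl⟩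
  rw [← hE0, ← hE1] at hsign ⊢
  have hq10 : 0 < q1 := by omega
  rcases lt_trichotomy v 0 with hv0 | hv0 | hv0
  · -- v < 0, u > 0
    have hu0 : 0 < u := by
      by_contra h
      push Not at h
      nlinarith
    have hu1 : (1 : ℝ) ≤ u := by exact_mod_cast hu0
    have hv1 : (v : ℝ) ≤ -1 := by exact_mod_cast (by omega : v ≤ -1)
    rcases hsign with ⟨h1, h2⟩ | ⟨h1, h2⟩
    · rw [abs_of_pos h1]
      refine le_trans ?_ (le_abs_self _)
      nlinarith [mul_nonneg (sub_nonneg.2 hu1) h1.le, mul_pos_of_neg_of_neg (show (v : ℝ) < 0 by linarith) h2]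
    · rw [abs_of_neg h1]
      refine le_trans ?_ (neg_le_abs _)
      nlinarith [mul_nonneg (sub_nonneg.2 hu1) (neg_nonneg.2 h1.le), mul_neg_of_neg_of_pos (show (v : ℝ) < 0 by linarith) h2]
  · -- v = 0
    subst hv0
    have hu0 : 0 < u := by
      by_contra h
      push Not at h
      nlinarith
    have hu1 : (1 : ℝ) ≤ u := by exact_mod_cast hu0
    rw [Int.cast_zero, zero_mul, add_zero, abs_mul]
    have : (1 : ℝ) ≤ |(u : ℝ)| := hu1.trans (le_abs_self _)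
    exact le_mul_of_one_le_left (abs_nonneg _) this
  · have hu0 : u < 0 := by
      by_contra h
      push Not at h
      nlinarith
    have hu1 : (u : ℝ) ≤ -1 := by exact_mod_cast (by omega : u ≤ -1)
    have hv1 : (1 : ℝ) ≤ v := by exact_mod_cast hv0
    rcases hsign with ⟨h1, h2⟩ | ⟨h1, h2⟩
    · rw [abs_of_pos h1]
      refine le_trans ?_ (neg_le_abs _)
      nlinarith [mul_nonneg (sub_nonneg.2 (show (1 : ℝ) ≤ -u by linarith)) h1.le,
        mul_neg_of_pos_of_neg (show (0 : ℝ) < v by linarith) h2]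
    · rw [abs_of_neg h1]
      refine le_trans ?_ (le_abs_self _)
      nlinarith [mul_nonneg (sub_nonneg.2 (show (1 : ℝ) ≤ -u by linarith)) (neg_nonneg.2 h1.le),
        mul_pos (show (0 : ℝ) < v by linarith) h2]

/-- the check for a pair of convergents: `A ≤ 2^P log (4/3) ≤ A'`, `B ≤ 2^P log (9/8) ≤ B'` -/
def pairChk (A A' B B' q0 r0 q1 r1 D : ℕ) : Bool :=
  Nat.ble (3 * r0) (2 * q0) && Nat.ble q0 (2 * r0) && Nat.ble (3 * r1) (2 * q1) && Nat.ble q1 (2 * r1) &&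
  Nat.blt 0 q0 && Nat.blt 0 D &&
  (Nat.beq (q0 * r1) (q1 * r0 + 1) || Nat.beq (q1 * r0) (q0 * r1 + 1)) &&
  ((Nat.ble ((2 * r0 - q0) * B' + D) ((2 * q0 - 3 * r0) * A) &&
      Nat.blt ((2 * q1 - 3 * r1) * A') ((2 * r1 - q1) * B)) ||
   (Nat.ble ((2 * q0 - 3 * r0) * A' + D) ((2 * r0 - q0) * B) &&
      Nat.blt ((2 * r1 - q1) * B') ((2 * q1 - 3 * r1) * A)))

theorem pair_lower {P A A' B B' q0 r0 q1 r1 D : ℕ}
    (hA : (A : ℝ) ≤ 2 ^ P * Real.log (4 / 3)) (hA' : 2 ^ P * Real.log (4 / 3) ≤ A')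
    (hB : (B : ℝ) ≤ 2 ^ P * Real.log (9 / 8)) (hB' : 2 ^ P * Real.log (9 / 8) ≤ B')
    (h : pairChk A A' B B' q0 r0 q1 r1 D = true) {q r : ℕ} (hq : 0 < q) (hq1 : q < q1) :
    (D : ℝ) ≤ 2 ^ P * |(q : ℝ) * Real.log 2 - r * Real.log 3| := by
  unfold pairChk at h
  simp only [Bool.and_eq_true, Bool.or_eq_true] at h
  obtain ⟨⟨⟨⟨⟨⟨⟨h1, h2⟩, h3⟩, h4⟩, h5⟩, h6⟩, h7⟩, h8⟩ := h
  have h1 := Nat.le_of_ble_eq_true h1
  have h2 := Nat.le_of_ble_eq_true h2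
  have h3 := Nat.le_of_ble_eq_true h3
  have h4 := Nat.le_of_ble_eq_true h4
  have h5 : 1 ≤ q0 := by simpa [Nat.blt] using h5
  have h6 : 1 ≤ D := by simpa [Nat.blt] using h6
  have h5 : 0 < q0 := h5
  have h6 : 0 < D := h6
  have h7 : q0 * r1 = q1 * r0 + 1 ∨ q1 * r0 = q0 * r1 + 1 := by
    rcases h7 with h | h
    · exact Or.inl (Nat.eq_of_beq_eq_true h)
    · exact Or.inr (Nat.eq_of_beq_eq_true h)
  have e2 : Real.log 2 = 2 * Real.log (4 / 3) + Real.log (9 / 8) := by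
    have h := Real.log_mul (x := (4 / 3 : ℝ) ^ 2) (y := 9 / 8) (by norm_num) (by norm_num)
    rw [Real.log_pow] at h
    rw [show (4 / 3 : ℝ) ^ 2 * (9 / 8) = 2 by norm_num] at h
    push_cast at h
    exact h
  have e3 : Real.log 3 = 3 * Real.log (4 / 3) + 2 * Real.log (9 / 8) := by
    have h := Real.log_mul (x := (4 / 3 : ℝ) ^ 3) (y := (9 / 8) ^ 2) (by norm_num) (by norm_num)
    rw [Real.log_pow, Real.log_pow] at h
    rw [show (4 / 3 : ℝ) ^ 3 * (9 / 8) ^ 2 = 3 by norm_num] at h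
    push_cast at h
    exact h
  obtain ⟨a, ha⟩ : ∃ a, a = Real.log (4 / 3) := ⟨_, rfl⟩
  obtain ⟨b, hb⟩ : ∃ b, b = Real.log (9 / 8) := ⟨_, rfl⟩
  rw [← ha] at hA hA' e2 e3
  rw [← hb] at hB hB' e2 e3
  have hP : (0 : ℝ) < 2 ^ P := by positivity
  have form : ∀ q r : ℕ, 3 * r ≤ 2 * q → q ≤ 2 * r →
      2 ^ P * ((q : ℝ) * Real.log 2 - r * Real.log 3) =
        ((2 * q - 3 * r : ℕ) : ℝ) * (2 ^ P * a) - ((2 * r - q : ℕ) : ℝ) * (2 ^ P * b) := by
    intro q r h h'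
    rw [e2, e3, Nat.cast_sub h, Nat.cast_sub h']
    push_cast
    ring
  have f0 := form q0 r0 h1 h2
  have f1 := form q1 r1 h3 h4
  obtain ⟨c0, hc0⟩ : ∃ c0, c0 = 2 * q0 - 3 * r0 := ⟨_, rfl⟩
  obtain ⟨d0, hd0⟩ : ∃ d0, d0 = 2 * r0 - q0 := ⟨_, rfl⟩
  obtain ⟨c1, hc1⟩ : ∃ c1, c1 = 2 * q1 - 3 * r1 := ⟨_, rfl⟩
  obtain ⟨d1, hd1⟩ : ∃ d1, d1 = 2 * r1 - q1 := ⟨_, rfl⟩
  rw [← hc0, ← hd0] at f0 h8
  rw [← hc1, ← hd1] at f1 h8
  have m1 : (c0 : ℝ) * A ≤ c0 * (2 ^ P * a) := mul_le_mul_of_nonneg_left hA (Nat.cast_nonneg _)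
  have m2 : (c0 : ℝ) * (2 ^ P * a) ≤ c0 * A' := mul_le_mul_of_nonneg_left hA' (Nat.cast_nonneg _)
  have m3 : (d0 : ℝ) * B ≤ d0 * (2 ^ P * b) := mul_le_mul_of_nonneg_left hB (Nat.cast_nonneg _)
  have m4 : (d0 : ℝ) * (2 ^ P * b) ≤ d0 * B' := mul_le_mul_of_nonneg_left hB' (Nat.cast_nonneg _)
  have n1 : (c1 : ℝ) * A ≤ c1 * (2 ^ P * a) := mul_le_mul_of_nonneg_left hA (Nat.cast_nonneg _)
  have n2 : (c1 : ℝ) * (2 ^ P * a) ≤ c1 * A' := mul_le_mul_of_nonneg_left hA' (Nat.cast_nonneg _)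
  have n3 : (d1 : ℝ) * B ≤ d1 * (2 ^ P * b) := mul_le_mul_of_nonneg_left hB (Nat.cast_nonneg _)
  have n4 : (d1 : ℝ) * (2 ^ P * b) ≤ d1 * B' := mul_le_mul_of_nonneg_left hB' (Nat.cast_nonneg _)
  have hDr : (0 : ℝ) < D := by exact_mod_cast h6
  have hdet : (q0 : ℤ) * r1 - q1 * r0 = 1 ∨ (q0 : ℤ) * r1 - q1 * r0 = -1 := by
    rcases h7 with h | h
    · left
      have : (q0 : ℤ) * r1 = q1 * r0 + 1 := by exact_mod_cast h
      linarith
    · right
      have : (q1 : ℤ) * r0 = q0 * r1 + 1 := by exact_mod_cast h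
      linarith
  have main : (D : ℝ) ≤ 2 ^ P * |(q0 : ℝ) * Real.log 2 - r0 * Real.log 3| ∧
      ((0 < (q0 : ℝ) * Real.log 2 - r0 * Real.log 3 ∧ (q1 : ℝ) * Real.log 2 - r1 * Real.log 3 < 0) ∨
        ((q0 : ℝ) * Real.log 2 - r0 * Real.log 3 < 0 ∧ 0 < (q1 : ℝ) * Real.log 2 - r1 * Real.log 3)) := by
    rcases h8 with ⟨h9, h10⟩ | ⟨h9, h10⟩
    · have h9 := Nat.le_of_ble_eq_true h9
      have h10 : c1 * A' < d1 * B := by simpa [Nat.blt] using h10
      have h9' : (d0 : ℝ) * B' + D ≤ c0 * A := by exact_mod_cast h9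
      have h10' : (c1 : ℝ) * A' < d1 * B := by exact_mod_cast h10
      have k0 : (D : ℝ) ≤ 2 ^ P * ((q0 : ℝ) * Real.log 2 - r0 * Real.log 3) := by rw [f0]; linarith
      have k1 : 2 ^ P * ((q1 : ℝ) * Real.log 2 - r1 * Real.log 3) < 0 := by rw [f1]; linarith
      have k0' : 0 < (q0 : ℝ) * Real.log 2 - r0 * Real.log 3 := by
        by_contra hc
        push Not at hc
        have := mul_nonpos_of_nonneg_of_nonpos hP.le hc
        linarith
      have k1' : (q1 : ℝ) * Real.log 2 - r1 * Real.log 3 < 0 := by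
        by_contra hc
        push Not at hc
        have := mul_nonneg hP.le hc
        linarith
      exact ⟨by rw [abs_of_pos k0']; exact k0, Or.inl ⟨k0', k1'⟩⟩
    · have h9 := Nat.le_of_ble_eq_true h9
      have h10 : d1 * B' < c1 * A := by simpa [Nat.blt] using h10
      have h9' : (c0 : ℝ) * A' + D ≤ d0 * B := by exact_mod_cast h9
      have h10' : (d1 : ℝ) * B' < c1 * A := by exact_mod_cast h10
      have k0 : 2 ^ P * ((q0 : ℝ) * Real.log 2 - r0 * Real.log 3) ≤ -D := by rw [f0]; linarith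
      have k1 : 0 < 2 ^ P * ((q1 : ℝ) * Real.log 2 - r1 * Real.log 3) := by rw [f1]; linarith
      have k0' : (q0 : ℝ) * Real.log 2 - r0 * Real.log 3 < 0 := by
        by_contra hc
        push Not at hc
        have := mul_nonneg hP.le hc
        linarith
      have k1' : 0 < (q1 : ℝ) * Real.log 2 - r1 * Real.log 3 := by
        by_contra hc
        push Not at hc
        have := mul_nonpos_of_nonneg_of_nonpos hP.le hc
        linarith
      refine ⟨by rw [abs_of_neg k0', mul_neg]; linarith, Or.inr ⟨k0', k1'⟩⟩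
  refine main.1.trans (mul_le_mul_of_nonneg_left ?_ hP.le)
  have := best (x := Real.log 2) (y := Real.log 3) (q0 := q0) (r0 := r0) (q1 := q1) (r1 := r1)
    (by exact_mod_cast h5) hdet (by push_cast; exact main.2) (q := q) (r := r) (by exact_mod_cast hq)
    (by exact_mod_cast hq1)
  push_cast at this
  exact this

end Pool.Agent.J6H8.Cls
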