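import Mathlib
import Pool.Agent.W42.Small

set_option autoImplicit false

/-!
Small elements: a search through the parity words which keep the iterates between the starting value
and four times the starting value.
-/

namespace Pool.Agent.J6H8.Cls

open Pool.Agent.W42.Small Pool.Agent.H319R2

/-- some iterate leaves `[a, 4 a]` -/
def leave (f : ℕ → ℕ) (a : ℕ) : ℕ → ℕ → Bool
  | 0, _ => false
  | k + 1, n => Nat.blt n a || Nat.blt (4 * a) n || leave f a k (f n)

/-- the search: the starting values are `a + P m`, their iterates are `b + Q m` -/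
def dfs (e : ℕ) (f : ℕ → ℕ) : ℕ → ℕ → ℕ → ℕ → ℕ → Bool
  | 0, a, b, _, _ => Nat.blt a 32768 || leave f a 400 b
  | k + 1, a, b, P, Q =>
    (Nat.ble Q P && (Nat.blt b a || (Nat.blt a 32768 && Nat.blt (b + Q) (a + P)))) ||
    (Nat.ble (4 * P) Q && (Nat.blt (4 * a) b || (Nat.blt a 32768 && Nat.blt (4 * (a + P)) (b + Q)))) ||
    (bif Nat.beq (b % 2) 0 then
      dfs e f k a (b / 2) (2 * P) Q && dfs e f k (a + P) ((3 * (b + Q) + 1 - e) / 2) (2 * P) (3 * Q)
    else
      dfs e f k (a + P) ((b + Q) / 2) (2 * P) Q && dfs e f k a ((3 * b + 1 - e) / 2) (2 * P) (3 * Q))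

theorem leave_spec (f : ℕ → ℕ) (a : ℕ) (k : ℕ) : ∀ n, leave f a k n = true →
    ∃ i, f^[i] n < a ∨ 4 * a < f^[i] n := by
  induction k with
  | zero => intro n h; simp [leave] at h
  | succ k ih =>
    intro n h
    rw [leave, Bool.or_eq_true, Bool.or_eq_true] at h
    rcases h with (h | h) | h
    · exact ⟨0, Or.inl (by simpa [Nat.blt] using h)⟩
    · exact ⟨0, Or.inr (by simpa [Nat.blt] using h)⟩
    · obtain ⟨i, hi⟩ := ih (f n) h
      exact ⟨i + 1, by rwa [Function.iterate_succ_apply]⟩

theorem dfs_sound {e : ℕ} (he : e ≤ 2) (hee : e % 2 = 0) {f : ℕ → ℕ} (hf0 : ∀ n, n % 2 = 0 → f n = n / 2)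
    (hf1 : ∀ n, n % 2 = 1 → f n = (3 * n + 1 - e) / 2) {y : ℕ} (hy : 32768 ≤ y)
    (hlo : ∀ i, y ≤ f^[i] y) (hhi : ∀ i, f^[i] y ≤ 4 * y) (k : ℕ) :
    ∀ (j a b P Q m : ℕ), dfs e f k a b P Q = true → (∀ m, f^[j] (a + P * m) = b + Q * m) →
      Q % 2 = 1 → y = a + P * m → y < P * 2 ^ k → False := by
  induction k with
  | zero =>
    intro j a b P Q m h hf hQ hym hyP
    have hm : m = 0 := by
      rcases Nat.eq_zero_or_pos m with h' | h'
      · exact h'
      · have : P * 1 ≤ P * m := Nat.mul_le_mul_left P h'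
        rw [pow_zero] at hyP
        omega
    subst hm
    have hya : y = a := by omega
    rw [dfs, Bool.or_eq_true] at h
    have hb : f^[j] a = b := by have := hf 0; simpa using this
    rcases h with h | h
    · have : a < 32768 := by simpa [Nat.blt] using h
      omega
    · obtain ⟨i, hi⟩ := leave_spec f a 400 b h
      rw [← hb, ← Function.iterate_add_apply, ← hya] at hi
      have h1 := hlo (i + j)
      have h2 := hhi (i + j)
      omega
  | succ k ih =>
    intro j a b P Q m h hf hQ hym hyP
    rw [dfs, Bool.or_eq_true, Bool.or_eq_true] at h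
    have hfy : f^[j] y = b + Q * m := by rw [hym]; exact hf m
    have h1 := hlo j
    have h2 := hhi j
    rw [hfy] at h1 h2
    rcases h with (h | h) | h
    · rw [Bool.and_eq_true, Bool.or_eq_true, Bool.and_eq_true] at h
      obtain ⟨hQP, h⟩ := h
      have hQP' : Q ≤ P := Nat.le_of_ble_eq_true hQP
      rcases h with h | ⟨h, h'⟩
      · have hba : b < a := by simpa [Nat.blt] using h
        have := Nat.mul_le_mul_right m hQP'
        omega
      · have ha : a < 32768 := by simpa [Nat.blt] using h
        have hba : b + Q < a + P := by simpa [Nat.blt] using h'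
        obtain ⟨m', rfl⟩ : ∃ m', m = m' + 1 := by
          refine ⟨m - 1, ?_⟩
          rcases Nat.eq_zero_or_pos m with h'' | h''
          · subst h''; omega
          · omega
        have := Nat.mul_le_mul_right m' hQP'
        have e1 : P * (m' + 1) = P * m' + P := by ring
        have e2 : Q * (m' + 1) = Q * m' + Q := by ring
        rw [e1] at hym
        rw [e2] at h1
        omega
    · rw [Bool.and_eq_true, Bool.or_eq_true, Bool.and_eq_true] at h
      obtain ⟨hQP, h⟩ := h
      have hQP' : 4 * P ≤ Q := Nat.le_of_ble_eq_true hQP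
      rcases h with h | ⟨h, h'⟩
      · have hba : 4 * a < b := by simpa [Nat.blt] using h
        have := Nat.mul_le_mul_right m hQP'
        have e3 : 4 * P * m = 4 * (P * m) := by ring
        omega
      · have ha : a < 32768 := by simpa [Nat.blt] using h
        have hba : 4 * (a + P) < b + Q := by simpa [Nat.blt] using h'
        obtain ⟨m', rfl⟩ : ∃ m', m = m' + 1 := by
          refine ⟨m - 1, ?_⟩
          rcases Nat.eq_zero_or_pos m with h'' | h''
          · subst h''; omega
          · omega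
        have := Nat.mul_le_mul_right m' hQP'
        have e1 : P * (m' + 1) = P * m' + P := by ring
        have e2 : Q * (m' + 1) = Q * m' + Q := by ring
        have e3 : 4 * P * m' = 4 * (P * m') := by ring
        rw [e1] at hym
        rw [e2] at h2
        omega
    · -- children
      have step_even : ∀ a' b' : ℕ, b' % 2 = 0 → (∀ m, f^[j] (a' + 2 * P * m) = b' + 2 * Q * m) →
          ∀ m, f^[j + 1] (a' + 2 * P * m) = b' / 2 + Q * m := by
        intro a' b' hb' hab m
        rw [Function.iterate_succ_apply', hab m, hf0 _ (by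
          have : 2 * Q * m = 2 * (Q * m) := by ring
          omega)]
        have : 2 * Q * m = 2 * (Q * m) := by ring
        omega
      have step_odd : ∀ a' b' : ℕ, b' % 2 = 1 → (∀ m, f^[j] (a' + 2 * P * m) = b' + 2 * Q * m) →
          ∀ m, f^[j + 1] (a' + 2 * P * m) = (3 * b' + 1 - e) / 2 + 3 * Q * m := by
        intro a' b' hb' hab m
        rw [Function.iterate_succ_apply', hab m, hf1 _ (by
          have : 2 * Q * m = 2 * (Q * m) := by ring
          omega)]
        have e1 : 3 * (b' + 2 * Q * m) = 3 * b' + 2 * (3 * Q * m) := by ring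
        rw [e1]
        omega
      have hab0 : ∀ m, f^[j] (a + 2 * P * m) = b + 2 * Q * m := by
        intro m
        have := hf (2 * m)
        rw [show P * (2 * m) = 2 * P * m by ring, show Q * (2 * m) = 2 * Q * m by ring] at this
        exact this
      have hab1 : ∀ m, f^[j] (a + P + 2 * P * m) = b + Q + 2 * Q * m := by
        intro m
        have := hf (2 * m + 1)
        rw [show a + P * (2 * m + 1) = a + P + 2 * P * m by ring,
          show b + Q * (2 * m + 1) = b + Q + 2 * Q * m by ring] at this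
        exact this
      have hP2 : y < 2 * P * 2 ^ k := by
        rw [pow_succ] at hyP
        calc y < P * (2 ^ k * 2) := hyP
          _ = 2 * P * 2 ^ k := by ring
      rcases Nat.mod_two_eq_zero_or_one b with hb | hb
      · rw [hb] at h
        have h' : (dfs e f k a (b / 2) (2 * P) Q &&
          dfs e f k (a + P) ((3 * (b + Q) + 1 - e) / 2) (2 * P) (3 * Q)) = true := h
        rw [Bool.and_eq_true] at h'
        rcases Nat.mod_two_eq_zero_or_one m with hm | hm
        · obtain ⟨m', rfl⟩ : ∃ m', m = 2 * m' := ⟨m / 2, by omega⟩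
          exact ih (j + 1) a (b / 2) (2 * P) Q m' h'.1 (step_even a b hb hab0) hQ
            (by rw [hym]; ring) hP2
        · obtain ⟨m', rfl⟩ : ∃ m', m = 2 * m' + 1 := ⟨m / 2, by omega⟩
          exact ih (j + 1) (a + P) ((3 * (b + Q) + 1 - e) / 2) (2 * P) (3 * Q) m' h'.2
            (step_odd (a + P) (b + Q) (by omega) hab1) (by omega) (by rw [hym]; ring) hP2
      · rw [hb] at h
        have h' : (dfs e f k (a + P) ((b + Q) / 2) (2 * P) Q &&
          dfs e f k a ((3 * b + 1 - e) / 2) (2 * P) (3 * Q)) = true := h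
        rw [Bool.and_eq_true] at h'
        rcases Nat.mod_two_eq_zero_or_one m with hm | hm
        · obtain ⟨m', rfl⟩ : ∃ m', m = 2 * m' := ⟨m / 2, by omega⟩
          exact ih (j + 1) a ((3 * b + 1 - e) / 2) (2 * P) (3 * Q) m' h'.2
            (step_odd a b hb hab0) (by omega) (by rw [hym]; ring) hP2
        · obtain ⟨m', rfl⟩ : ∃ m', m = 2 * m' + 1 := ⟨m / 2, by omega⟩
          exact ih (j + 1) (a + P) ((b + Q) / 2) (2 * P) Q m' h'.1
            (step_even (a + P) (b + Q) (by omega) hab1) hQ (by rw [hym]; ring) hP2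

theorem sp_even (n : ℕ) (h : n % 2 = 0) : sp n = n / 2 := by
  unfold sp
  rw [h]
  rfl

theorem sp_odd (n : ℕ) (h : n % 2 = 1) : sp n = (3 * n + 1 - 0) / 2 := by
  unfold sp
  rw [h]
  rfl

theorem sn_even (n : ℕ) (h : n % 2 = 0) : sn n = n / 2 := by
  unfold sn
  rw [h]
  rfl

theorem sn_odd (n : ℕ) (h : n % 2 = 1) : sn n = (3 * n + 1 - 2) / 2 := by
  unfold sn
  rw [h]
  rfl

theorem sp_run : dfs 0 sp 52 0 0 1 1 = true := by decide +kernel

theorem sn_run : dfs 2 sn 52 0 0 1 1 = true := by decide +kernel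

theorem sp_small {y : ℕ} (hlo : ∀ i, y ≤ sp^[i] y) (hhi : ∀ i, sp^[i] y ≤ 4 * y) (hy : y < 2 ^ 52) :
    y < 32768 := by
  by_contra h
  push Not at h
  exact dfs_sound (e := 0) (by norm_num) (by norm_num) sp_even sp_odd h hlo hhi 52 0 0 0 1 1 y sp_run
    (by intro m; simp) (by norm_num) (by ring) (by rw [one_mul]; exact hy)

theorem sn_small {y : ℕ} (hlo : ∀ i, y ≤ sn^[i] y) (hhi : ∀ i, sn^[i] y ≤ 4 * y) (hy : y < 2 ^ 52) :
    y < 32768 := by
  by_contra h
  push Not at h
  exact dfs_sound (e := 2) (by norm_num) (by norm_num) sn_even sn_odd h hlo hhi 52 0 0 0 1 1 y sn_run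
    (by intro m; simp) (by norm_num) (by ring) (by rw [one_mul]; exact hy)

/-- **Small least elements.** -/
theorem small {x : ℤ} (hlo : ∀ j, |x| ≤ |T^[j] x|) (hhi : ∀ j, |T^[j] x| ≤ 4 * |x|) (hx : |x| < 2 ^ 52) :
    |x| < 32768 := by
  rcases le_or_gt 0 x with h | h
  · obtain ⟨n, rfl⟩ := Int.eq_ofNat_of_zero_le h
    have hit : ∀ j, |T^[j] ((n : ℕ) : ℤ)| = ((sp^[j] n : ℕ) : ℤ) := by
      intro j
      rw [sp_iter]
      exact abs_of_nonneg (by positivity)
    rw [abs_of_nonneg h] at hlo hhi hx ⊢
    have h1 := sp_small (y := n) (fun i => by have := hlo i; rw [hit] at this; exact_mod_cast this)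
      (fun i => by have := hhi i; rw [hit] at this; exact_mod_cast this) (by exact_mod_cast hx)
    exact_mod_cast h1
  · obtain ⟨n, hn⟩ := Int.eq_ofNat_of_zero_le (show 0 ≤ -x by omega)
    obtain rfl : x = -(n : ℤ) := by omega
    have hit : ∀ j, |T^[j] (-((n : ℕ) : ℤ))| = ((sn^[j] n : ℕ) : ℤ) := by
      intro j
      rw [sn_iter, abs_neg]
      exact abs_of_nonneg (by positivity)
    rw [abs_neg, abs_of_nonneg (by positivity : (0 : ℤ) ≤ (n : ℤ))] at hlo hhi hx ⊢
    have h1 := sn_small (y := n) (fun i => by have := hlo i; rw [hit] at this; exact_mod_cast this)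
      (fun i => by have := hhi i; rw [hit] at this; exact_mod_cast this) (by exact_mod_cast hx)
    exact_mod_cast h1

end Pool.Agent.J6H8.Cls
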