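import Mathlib
import Pool.Agent.J6H8.Sal.Measure
import Pool.Agent.W42.Lcm
import Pool.Agent.J6H8.Cls.Data

set_option autoImplicit false

/-!
An explicit lower bound for the denominators of good approximations of `log 2 / log 3`.
-/

namespace Pool.Agent.J6H8.Cls

open Pool.Agent.J6H8.Sal

theorem log2_lb : 0.6931471 ≤ Real.log 2 := by linarith [Real.log_two_gt_d9]

theorem log2_ub : Real.log 2 ≤ 0.6931472 := by linarith [Real.log_two_lt_d9]

theorem log3_ub' : Real.log 3 ≤ 1.098613 := by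
  have h : (1000000 : ℝ) * (3 * nA1 + 2 * nB1) ≤ 1098613 * 2 ^ 2800 := by
    have : 1000000 * (3 * nA1 + 2 * nB1) ≤ 1098613 * 2 ^ 2800 := by decide +kernel
    exact_mod_cast this
  have hP : (0 : ℝ) < 2 ^ 2800 := by positivity
  have h2 : 2 ^ 2800 * Real.log 3 ≤ 2 ^ 2800 * 1.098613 := by
    rw [log3_eq]; linarith [encA.2, encB.2]
  exact le_of_mul_le_mul_left h2 hP

set_option exponentiation.threshold 600 in
theorem const_ineq : ((1200500000 * 198499 : ℝ) ^ 4 * 22209.25 ^ 21) ≤ 2 ^ 4 * 2 ^ 491 := by norm_num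

theorem meas {q r : ℕ} (hq : 0 < q) {N : ℝ} (hN : 1000 ≤ N)
    (h : |(q : ℝ) * Real.log 2 - r * Real.log 3| ≤ q / (2 * N)) :
    N ^ 4 ≤ 2 ^ 491 * (q : ℝ) ^ 25 := by
  have hqr : (1 : ℝ) ≤ q := by exact_mod_cast hq
  have hN0 : 0 < N := by linarith
  have hl3 : 0 < Real.log 3 := Real.log_pos (by norm_num)
  have l2a := log2_lb
  have l2b := log2_ub
  have l3a := log3_lb'
  have l3b := log3_ub'
  obtain ⟨E, hE⟩ : ∃ E, E = (q : ℝ) * Real.log 2 - r * Real.log 3 := ⟨_, rfl⟩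
  have hq2N : (q : ℝ) / (2 * N) ≤ q / 2000 :=
    div_le_div_of_nonneg_left (by linarith) (by norm_num) (by linarith)
  have hE1 := abs_le.1 (h.trans hq2N)
  have hr0 : (0 : ℝ) ≤ r := Nat.cast_nonneg _
  have m1 : (r : ℝ) * 1.098612 ≤ r * Real.log 3 := mul_le_mul_of_nonneg_left l3a hr0
  have m2 : (r : ℝ) * Real.log 3 ≤ r * 1.098613 := mul_le_mul_of_nonneg_left l3b hr0
  have m3 : (q : ℝ) * 0.6931471 ≤ q * Real.log 2 := mul_le_mul_of_nonneg_left l2a (by linarith)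
  have m4 : (q : ℝ) * Real.log 2 ≤ q * 0.6931472 := mul_le_mul_of_nonneg_left l2b (by linarith)
  have hr1 : 0.6304 * (q : ℝ) ≤ r := by linarith [hE1.2]
  have hr2 : (r : ℝ) ≤ 0.6314 * q := by linarith [hE1.1]
  obtain ⟨u, hu⟩ : ∃ u : ℤ, u = q - r := ⟨_, rfl⟩
  obtain ⟨v, hv⟩ : ∃ v : ℤ, v = q - 2 * r := ⟨_, rfl⟩
  have hur : (u : ℝ) = q - r := by rw [hu]; push_cast; ring
  have hvr : (v : ℝ) = q - 2 * r := by rw [hv]; push_cast; ring
  have huv : 0 < u + v := by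
    have : (0 : ℝ) < (u : ℝ) + v := by rw [hur, hvr]; linarith
    exact_mod_cast this
  have hv0 : v < 0 := by
    have : (v : ℝ) < 0 := by rw [hvr]; linarith
    exact_mod_cast this
  have hu1 : (u : ℝ) ≤ 0.37 * q := by rw [hur]; linarith
  have hu0 : (1 : ℝ) ≤ u := by
    have : 1 ≤ u := by omega
    exact_mod_cast this
  have e43 : Real.log (4 / 3) = 2 * Real.log 2 - Real.log 3 := by
    rw [Real.log_div (by norm_num) (by norm_num), show (4 : ℝ) = 2 ^ 2 by norm_num, Real.log_pow]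
    push_cast; ring
  have e32 : Real.log (3 / 2) = Real.log 3 - Real.log 2 := Real.log_div (by norm_num) (by norm_num)
  have hform : (u : ℝ) * Real.log (4 / 3) + v * Real.log (3 / 2) = E := by
    rw [hE, e43, e32, hur, hvr]; ring
  -- the choice of m
  obtain ⟨ρ, hρ⟩ : ∃ ρ : ℝ, ρ = 251 / 24.5 := ⟨_, rfl⟩
  have hρ1 : 1 < ρ := by rw [hρ]; norm_num
  have hρ0 : 0 < ρ := by linarith
  have hex : ∃ m : ℕ, 60025 * (u : ℝ) ≤ ρ ^ (m + 1) := by
    obtain ⟨m, hm⟩ := pow_unbounded_of_one_lt (60025 * (u : ℝ)) hρ1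
    refine ⟨m, hm.le.trans ?_⟩
    exact pow_le_pow_right₀ hρ1.le (Nat.le_succ m)
  classical
  obtain ⟨m, hm⟩ : ∃ m, m = Nat.find hex := ⟨_, rfl⟩
  have hm1 : 60025 * (u : ℝ) ≤ ρ ^ (m + 1) := by rw [hm]; exact Nat.find_spec hex
  have hm2 : ρ ^ m ≤ 60025 * (u : ℝ) := by
    rcases Nat.eq_zero_or_pos m with h0 | h0
    · rw [h0, pow_zero]; linarith
    · obtain ⟨m', hm'⟩ : ∃ m', m = m' + 1 := ⟨m - 1, by omega⟩
      have h1 : ¬ 60025 * (u : ℝ) ≤ ρ ^ (m' + 1) := Nat.find_min hex (by omega)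
      rw [hm']
      exact (not_le.1 h1).le
  have key := key2 (C := 1) (w := 7 / 2) (by norm_num) (by norm_num)
    (fun n => by rw [one_mul]; exact Pool.Agent.W42.Lcm.lcm_le n) (m + 1) (by omega) u v huv hv0
  rw [hform] at key
  have e1 : (2 * (7 / 2 : ℝ) ^ 2 / 251) = ρ⁻¹ := by rw [hρ]; norm_num
  have e2 : (2 * (7 / 2 : ℝ) ^ 2 * 8102) = 198499 := by norm_num
  rw [e1, e2, inv_pow] at key
  have hρm : 0 < ρ ^ (m + 1) := by positivity
  have k1 : 10 * (u : ℝ) * (ρ ^ (m + 1))⁻¹ ≤ 10 / 60025 := by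
    rw [← div_eq_mul_inv, div_le_div_iff₀ hρm (by norm_num)]
    linarith
  have k2 : 1 ≤ 1200500000 * (198499 : ℝ) ^ (m + 1) * |E| := by
    have e3 : 70 * 1 * (7 / 2 : ℝ) ^ 3 = 3001.25 := by norm_num
    rw [e3] at key
    have : (3001.25 : ℝ) * (10 * (u : ℝ) * (ρ ^ (m + 1))⁻¹) ≤ 3001.25 * (10 / 60025) :=
      mul_le_mul_of_nonneg_left k1 (by norm_num)
    norm_num at this
    linarith
  have hEq : |E| ≤ q / (2 * N) := by rw [hE]; exact h
  have k3 : 2 * N ≤ 1200500000 * (198499 : ℝ) ^ (m + 1) * q := by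
    have h1 : 1 ≤ 1200500000 * (198499 : ℝ) ^ (m + 1) * (q / (2 * N)) :=
      k2.trans (mul_le_mul_of_nonneg_left hEq (by positivity))
    rw [mul_div_assoc', le_div_iff₀ (by positivity)] at h1
    linarith
  have k4 : ((198499 : ℝ) ^ m) ^ 4 ≤ (60025 * (u : ℝ)) ^ 21 := by
    calc ((198499 : ℝ) ^ m) ^ 4 = (198499 ^ 4) ^ m := by rw [← pow_mul, ← pow_mul, Nat.mul_comm]
      _ ≤ (ρ ^ 21) ^ m := by
          apply pow_le_pow_left₀ (by positivity)
          rw [hρ]; norm_num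
      _ = (ρ ^ m) ^ 21 := by rw [← pow_mul, ← pow_mul, Nat.mul_comm]
      _ ≤ _ := pow_le_pow_left₀ (by positivity) hm2 21
  have k5 : (60025 * (u : ℝ)) ^ 21 ≤ (22209.25 * q) ^ 21 := by
    apply pow_le_pow_left₀ (by positivity)
    linarith
  have k6 : (2 * N) ^ 4 ≤ (1200500000 * 198499) ^ 4 * (22209.25 * (q : ℝ)) ^ 21 * q ^ 4 := by
    calc (2 * N) ^ 4 ≤ (1200500000 * (198499 : ℝ) ^ (m + 1) * q) ^ 4 :=
          pow_le_pow_left₀ (by positivity) k3 4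
      _ = (1200500000 * 198499) ^ 4 * ((198499 : ℝ) ^ m) ^ 4 * q ^ 4 := by ring
      _ ≤ _ := by
          apply mul_le_mul_of_nonneg_right _ (by positivity)
          exact mul_le_mul_of_nonneg_left (k4.trans k5) (by positivity)
  have k7 : (1200500000 * 198499 : ℝ) ^ 4 * (22209.25 * (q : ℝ)) ^ 21 * q ^ 4 =
      ((1200500000 * 198499) ^ 4 * 22209.25 ^ 21) * (q : ℝ) ^ 25 := by ring
  have k8 : ((1200500000 * 198499 : ℝ) ^ 4 * 22209.25 ^ 21) ≤ 2 ^ 4 * 2 ^ 491 := const_ineq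
  rw [k7, mul_pow] at k6
  have k9 : ((1200500000 * 198499 : ℝ) ^ 4 * 22209.25 ^ 21) * (q : ℝ) ^ 25 ≤ 2 ^ 4 * 2 ^ 491 * (q : ℝ) ^ 25 :=
    mul_le_mul_of_nonneg_right k8 (by positivity)
  have k10 : (2 : ℝ) ^ 4 * N ^ 4 ≤ 2 ^ 4 * (2 ^ 491 * (q : ℝ) ^ 25) := by
    refine (k6.trans k9).trans (le_of_eq ?_)
    ring
  exact le_of_mul_le_mul_left k10 (by norm_num)

end Pool.Agent.J6H8.Cls
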