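import Mathlib

set_option autoImplicit false

/-!
The largest number of visits of a rotation to an arc within `n` steps, by a finite check.
-/

namespace Pool.Agent.J6H8.Cls

open Finset

/-- number of `t < k` with `p t` -/
def cntp (p : ℕ → Bool) : ℕ → ℕ
  | 0 => 0
  | k + 1 => cntp p k + (p k).toNat

/-- number of `1 ≤ t ≤ k` with `q t` -/
def cntq (q : ℕ → Bool) : ℕ → ℕ
  | 0 => 0
  | k + 1 => cntq q k + (q (k + 1)).toNat

theorem cntp_eq (p : ℕ → Bool) (k : ℕ) : cntp p k = ((range k).filter fun t => p t = true).card := by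
  induction k with
  | zero => simp [cntp]
  | succ k ih =>
    rw [cntp, ih, range_add_one, filter_insert]
    rcases h : p k with _ | _
    · simp
    · simp

theorem cntq_eq (q : ℕ → Bool) (k : ℕ) : cntq q k = ((range k).filter fun t => q (t + 1) = true).card := by
  induction k with
  | zero => simp [cntq]
  | succ k ih =>
    rw [cntq, ih, range_add_one, filter_insert]
    rcases h : q (k + 1) with _ | _
    · simp
    · simp

/-- the check of all windows -/
def slide (p q : ℕ → Bool) (K : ℕ) : ℕ → ℕ → ℕ → Bool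
  | 0, _, W => Nat.ble W K
  | r + 1, j, W => Nat.ble W K && slide p q K r (j + 1) (W + (q (j + 1)).toNat - (p r).toNat)

theorem slide_spec (p q : ℕ → Bool) (K : ℕ) (r : ℕ) : ∀ j W, slide p q K r j W = true →
    W = cntp p r + cntq q j → ∀ i ≤ r, cntp p (r - i) + cntq q (j + i) ≤ K := by
  induction r with
  | zero =>
    intro j W h hW i hi
    have : i = 0 := by omega
    subst this
    rw [slide] at h
    have := Nat.le_of_ble_eq_true h
    simpa [hW] using this
  | succ r ih =>
    intro j W h hW i hi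
    rw [slide, Bool.and_eq_true] at h
    have h1 := Nat.le_of_ble_eq_true h.1
    rcases Nat.eq_zero_or_pos i with h' | h'
    · subst h'
      simp only [Nat.sub_zero, Nat.add_zero]
      omega
    · have h2 := ih (j + 1) _ h.2 (by
        rw [hW, cntp, cntq]; omega) (i - 1) (by omega)
      have e1 : r - (i - 1) = r + 1 - i := by omega
      have e2 : j + 1 + (i - 1) = j + i := by omega
      rw [e1, e2] at h2
      exact h2

/-- the whole check -/
def allwin (p q : ℕ → Bool) (K n : ℕ) : Bool := slide p q K n 0 (cntp p n)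

theorem allwin_spec {p q : ℕ → Bool} {K n : ℕ} (h : allwin p q K n = true) (P : ℤ → Prop)
    (hp : ∀ t : ℕ, t < n → P t → p t = true) (hq : ∀ t : ℕ, t ≤ n → P (-(t : ℤ)) → q t = true) (j : ℕ)
    (hj : j ≤ n) (F : Finset ℤ) (hF : ∀ t ∈ F, -(j : ℤ) ≤ t ∧ t < (n : ℤ) - j ∧ P t) : F.card ≤ K := by
  classical
  have h1 := slide_spec p q K n 0 _ h (by rw [cntq, Nat.add_zero]) j hj
  rw [Nat.zero_add] at h1
  refine le_trans ?_ h1
  rw [cntp_eq, cntq_eq]
  have h2 : F ⊆ (((range (n - j)).filter fun t => p t = true).image fun t : ℕ => (t : ℤ)) ∪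
      (((range j).filter fun t => q (t + 1) = true).image fun t : ℕ => -((t : ℤ) + 1)) := by
    intro t ht
    obtain ⟨h3, h4, h5⟩ := hF t ht
    rw [mem_union, mem_image, mem_image]
    rcases le_or_gt 0 t with h6 | h6
    · left
      obtain ⟨m, rfl⟩ := Int.eq_ofNat_of_zero_le h6
      refine ⟨m, ?_, rfl⟩
      rw [mem_filter, mem_range]
      exact ⟨by omega, hp m (by omega) h5⟩
    · right
      obtain ⟨m, hm⟩ := Int.eq_ofNat_of_zero_le (show 0 ≤ -t - 1 by omega)
      refine ⟨m, ?_, by omega⟩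
      rw [mem_filter, mem_range]
      refine ⟨by omega, hq (m + 1) (by omega) ?_⟩
      have : -(((m + 1 : ℕ) : ℤ)) = t := by push_cast; omega
      rw [this]
      exact h5
  refine (card_le_card h2).trans ((card_union_le _ _).trans ?_)
  exact Nat.add_le_add card_image_le card_image_le

/-- visits with rational data: `a / M` is close to the angle, `L / M` bounds the length of the arc -/
def vis (M L n m : ℕ) : Bool := Nat.ble m (L + n) || Nat.ble M (m + n)

def vp (a M L n t : ℕ) : Bool := vis M L n (t * a % M)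

def vm (a M L n t : ℕ) : Bool := vis M L n ((M - t * a % M) % M)

theorem rot_exact {α : ℝ} {a M L n K : ℕ} (hM : 0 < M) (h1 : (a : ℝ) ≤ α * M) (h2 : α * M ≤ a + 1)
    (hLM : L + n < M)
    (h : allwin (vp a M L n) (vm a M L n) K n = true) {s r : ℝ} (hr : 2 * r * M ≤ L) (V : Finset ℕ)
    (hV : ∀ i ∈ V, i < n ∧ ∃ o : ℤ, |(i : ℝ) * α - s - o| ≤ r) : V.card ≤ K := by
  classical
  rcases V.eq_empty_or_nonempty with rfl | hne
  · simp
  have hMr : (0 : ℝ) < M := by exact_mod_cast hM
  choose! o ho using fun i hi => (hV i hi).2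
  obtain ⟨i0, hi0, hmin⟩ := exists_min_image V (fun i : ℕ => (i : ℝ) * α - s - o i) hne
  have hi0n : i0 < n := (hV i0 hi0).1
  set P : ℤ → Prop := fun t => ∃ w : ℤ, 0 ≤ (t : ℝ) * α - w ∧ (t : ℝ) * α - w ≤ 2 * r with hP
  have key : ∀ (t : ℤ) (w : ℤ), |t| ≤ n → 0 ≤ (t : ℝ) * α - w → (t : ℝ) * α - w ≤ 2 * r →
      -(n : ℤ) ≤ t * a - w * M ∧ t * a - w * M ≤ L + n := by
    intro t w ht hw1 hw2
    have h3 : |(t : ℝ)| ≤ n := by exact_mod_cast ht
    have h4 : |(t : ℝ) * (α * M - a)| ≤ n := by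
      rw [abs_mul]
      have : |α * M - a| ≤ 1 := by rw [abs_le]; constructor <;> linarith
      calc |(t : ℝ)| * |α * M - a| ≤ n * 1 := mul_le_mul h3 this (abs_nonneg _) (by positivity)
        _ = n := mul_one _
    rw [abs_le] at h4
    have e : (t : ℝ) * a - w * M = ((t : ℝ) * α - w) * M - t * (α * M - a) := by ring
    have h5 : 0 ≤ ((t : ℝ) * α - w) * M := mul_nonneg hw1 hMr.le
    have h6 : ((t : ℝ) * α - w) * M ≤ 2 * r * M := mul_le_mul_of_nonneg_right hw2 hMr.le
    constructor
    · have : -(n : ℝ) ≤ (t : ℝ) * a - w * M := by rw [e]; linarith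
      exact_mod_cast this
    · have : (t : ℝ) * a - w * M ≤ L + n := by rw [e]; linarith
      exact_mod_cast this
  have hvis : ∀ m : ℕ, m < M → ∀ z : ℤ, (M : ℤ) ∣ z - m → -(n : ℤ) ≤ z → z ≤ L + n → vis M L n m = true := by
    intro m hm z hz hz1 hz2
    unfold vis
    rw [Bool.or_eq_true]
    obtain ⟨u, hu⟩ := hz
    rcases lt_trichotomy u 0 with h' | h' | h'
    · right
      apply Nat.ble_eq_true_of_le
      have : (M : ℤ) * u ≤ -M := by nlinarith
      have : (M : ℤ) ≤ m + n := by linarith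
      exact_mod_cast this
    · left
      apply Nat.ble_eq_true_of_le
      subst h'
      have : (m : ℤ) ≤ L + n := by linarith
      exact_mod_cast this
    · exfalso
      have h6 : (M : ℤ) ≤ M * u := by nlinarith
      have h7 : ((L + n : ℕ) : ℤ) < M := by exact_mod_cast hLM
      push_cast at h7
      have : (0 : ℤ) ≤ m := Int.natCast_nonneg m
      linarith
  have hcard : V.card = (V.image fun i : ℕ => (i : ℤ) - i0).card := by
    rw [card_image_of_injective]
    intro x y hxy
    simp only at hxy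
    omega
  rw [hcard]
  apply allwin_spec h P _ _ i0 hi0n.le
  · intro t ht
    rw [mem_image] at ht
    obtain ⟨i, hi, rfl⟩ := ht
    have hin := (hV i hi).1
    refine ⟨by omega, by omega, o i - o i0, ?_, ?_⟩
    · have := hmin i hi
      push_cast
      linarith
    · have h3 := ho i hi
      have h4 := ho i0 hi0
      rw [abs_le] at h3 h4
      push_cast
      linarith [h3.2, h4.1]
  · intro t ht hPt
    obtain ⟨w, hw1, hw2⟩ := hPt
    obtain ⟨h3, h4⟩ := key (t : ℤ) w (by rw [abs_of_nonneg (by positivity)]; exact_mod_cast ht.le)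
      (by exact_mod_cast hw1) (by exact_mod_cast hw2)
    unfold vp
    apply hvis _ (Nat.mod_lt _ hM) ((t : ℤ) * a - w * M) _ h3 h4
    have h5 := Nat.div_add_mod (t * a) M
    have h6 : (t : ℤ) * a = M * ((t * a / M : ℕ) : ℤ) + ((t * a % M : ℕ) : ℤ) := by exact_mod_cast h5.symm
    exact ⟨((t * a / M : ℕ) : ℤ) - w, by rw [h6]; ring⟩
  · intro t ht hPt
    obtain ⟨w, hw1, hw2⟩ := hPt
    obtain ⟨h3, h4⟩ := key (-(t : ℤ)) w (by rw [abs_neg, abs_of_nonneg (by positivity)]; exact_mod_cast ht)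
      (by exact_mod_cast hw1) (by exact_mod_cast hw2)
    unfold vm
    apply hvis _ (Nat.mod_lt _ hM) (-(t : ℤ) * a - w * M) _ h3 h4
    have h5 := Nat.div_add_mod (t * a) M
    have h6 : (t : ℤ) * a = M * ((t * a / M : ℕ) : ℤ) + ((t * a % M : ℕ) : ℤ) := by exact_mod_cast h5.symm
    have h7 : t * a % M < M := Nat.mod_lt _ hM
    have h8 := Nat.div_add_mod (M - t * a % M) M
    have h9 : ((M - t * a % M : ℕ) : ℤ) = (M : ℤ) - ((t * a % M : ℕ) : ℤ) := by
      push_cast [Nat.cast_sub h7.le]; ring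
    have h10 : (M : ℤ) - ((t * a % M : ℕ) : ℤ) = M * (((M - t * a % M) / M : ℕ) : ℤ) +
        (((M - t * a % M) % M : ℕ) : ℤ) := by rw [← h9]; exact_mod_cast h8.symm
    refine ⟨-((t * a / M : ℕ) : ℤ) - w - 1 + (((M - t * a % M) / M : ℕ) : ℤ), ?_⟩
    linear_combination (-1 : ℤ) * h6 + h10
end Pool.Agent.J6H8.Cls
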