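import Mathlib
import Pool.Agent.H547R3.Osc3
import Pool.Agent.J6H8.Cls.Rot
import Pool.Agent.J6H8.Cls.Best

set_option autoImplicit false

/-!
Cycles inside a window `[N, 4 N]`: the middle range.
-/

namespace Pool.Agent.J6H8.Cls

open Finset Pool.Agent.H319R2 Pool.Agent.H547R3

/-- a cycle is determined by its period at each of its elements -/
theorem cyc_per {Z : Finset ℤ} (hZ : IsCycle Z) {x0 : ℤ} (hx0 : x0 ∈ Z) : T^[Z.card] x0 = x0 := by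
  obtain ⟨z, hz, hpos, hset, hcard, -, -⟩ := hZ.normal
  obtain ⟨j, hj⟩ := hZ.back hz hx0
  rw [hcard, ← hj, ← Function.iterate_add_apply, Nat.add_comm, Function.iterate_add_apply,
    Function.iterate_minimalPeriod]

/-- the numerical data -/
structure Data (P A A' B B' a : ℕ) : Prop where
  hA : (A : ℝ) ≤ 2 ^ P * Real.log (4 / 3)
  hA' : 2 ^ P * Real.log (4 / 3) ≤ A'
  hB : (B : ℝ) ≤ 2 ^ P * Real.log (9 / 8)
  hB' : 2 ^ P * Real.log (9 / 8) ≤ B'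
  ha : (a : ℝ) ≤ Real.log 2 / Real.log 3 * ((2 ^ 64 : ℕ) : ℝ)
  ha' : Real.log 2 / Real.log 3 * ((2 ^ 64 : ℕ) : ℝ) ≤ a + 1

theorem V_le {a L n K : ℕ} (ha : (a : ℝ) ≤ Real.log 2 / Real.log 3 * ((2 ^ 64 : ℕ) : ℝ))
    (ha' : Real.log 2 / Real.log 3 * ((2 ^ 64 : ℕ) : ℝ) ≤ a + 1) (hL : L + n < 2 ^ 64)
    (h : allwin (vp a (2 ^ 64) L n) (vm a (2 ^ 64) L n) K n = true) {δ τ : ℝ}
    (hδ : (δ + 4 * τ) / Real.log 3 * ((2 ^ 64 : ℕ) : ℝ) ≤ L) (m : ℕ) : (V δ τ n m).card ≤ K := by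
  have hl3 : 0 < Real.log 3 := Real.log_pos (by norm_num)
  apply rot_exact (α := Real.log 2 / Real.log 3) (by positivity) ha ha' hL h
    (s := ((m : ℝ) * τ - (Real.log 2 + δ / 2)) / Real.log 3) (r := (δ / 2 + 2 * τ) / Real.log 3)
  · refine le_trans (le_of_eq ?_) hδ
    field_simp
    ring
  intro i hi
  rw [mem_V] at hi
  obtain ⟨hik, o, ho⟩ := hi
  refine ⟨hik, o, ?_⟩
  have e : (i : ℝ) * (Real.log 2 / Real.log 3) - ((m : ℝ) * τ - (Real.log 2 + δ / 2)) / Real.log 3 - o =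
      -((m : ℝ) * τ - i * Real.log 2 + o * Real.log 3 - (Real.log 2 + δ / 2)) / Real.log 3 := by
    field_simp
    ring
  rw [e, abs_div, abs_neg, abs_of_pos hl3]
  exact div_le_div_of_nonneg_right ho hl3.le

/-- **One range.** -/
theorem medium {P A A' B B' a : ℕ} (hd : Data P A A' B B' a) {t0 t1 T0 G K L q0 r0 q1 r1 D : ℕ}
    (hT0 : 0 < T0) (hL : (Real.log 4 - Real.log 3 + 4 * (1 / (T0 : ℝ))) / Real.log 3 * ((2 ^ 64 : ℕ) : ℝ) ≤ L)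
    (hG : Real.log 4 / (1 / (T0 : ℝ)) < G) (hLn : L + (t1 + 3) < 2 ^ 64)
    (hK : allwin (vp a (2 ^ 64) L (t1 + 3)) (vm a (2 ^ 64) L (t1 + 3)) K (t1 + 3) = true)
    (hpair : pairChk A A' B B' q0 r0 q1 r1 D = true) (hGK : G * 2 ^ K < q1)
    (hD : q1 * 2 ^ P ≤ 2 ^ (t0 + 1) * D) (hkT : (t1 + 3) * T0 ≤ 2 ^ (t0 + 1))
    {Z : Finset ℤ} (hZ : IsCycle Z) {N : ℝ} (hZN : ∀ x ∈ Z, N ≤ |(x : ℝ)| ∧ |(x : ℝ)| ≤ 4 * N)
    (hN0 : (2 : ℝ) ^ t0 ≤ N) (hN1 : N < 2 ^ t1) : False := by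
  have hT0r : (0 : ℝ) < T0 := by exact_mod_cast hT0
  have hN1' : (1 : ℝ) ≤ N := (one_le_pow₀ (by norm_num)).trans hN0
  have hNp : 0 < N := by linarith
  obtain ⟨τ, hτ⟩ : ∃ τ, τ = 1 / (T0 : ℝ) := ⟨_, rfl⟩
  rw [← hτ] at hL hG
  have hτ0 : 0 < τ := by rw [hτ]; positivity
  have hkr : (((t1 + 3 : ℕ) : ℝ)) * T0 ≤ 2 ^ (t0 + 1) := by exact_mod_cast hkT
  have h2N : (2 : ℝ) ^ (t0 + 1) ≤ 2 * N := by rw [pow_succ]; linarith
  have hkN : ((t1 + 3 : ℕ) : ℝ) / (2 * N) ≤ τ := by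
    rw [hτ, div_le_div_iff₀ (by positivity) hT0r]
    linarith
  have h1N : 1 / (2 * N) ≤ τ := by
    refine le_trans ?_ hkN
    apply div_le_div_of_nonneg_right _ (by positivity)
    push_cast
    have : (0 : ℝ) ≤ t1 := Nat.cast_nonneg _
    linarith
  have hcl : ∀ x ∈ Z, ∀ j, T^[j] x ∈ Z := fun x hx j => hZ.closed hx j
  have hbig : 2 * ((4 : ℝ) * N) < 2 ^ (t1 + 3) := by
    rw [pow_add]; norm_num; linarith
  have hcard := window_card (B := 4) (by norm_num) hτ0 hN1' hbig hkN h1N hcl hZN K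
    (fun m => V_le hd.ha hd.ha' hLn hK hL m)
  have hfl : ⌊Real.log 4 / τ⌋₊ + 1 ≤ G := by
    have h0 : 0 ≤ Real.log 4 / τ := div_nonneg (Real.log_nonneg (by norm_num)) hτ0.le
    exact (Nat.floor_lt h0).2 hG
  have hpq : Z.card < q1 :=
    lt_of_le_of_lt (hcard.trans (Nat.mul_le_mul_right _ hfl)) hGK
  -- the linear form
  obtain ⟨x0, hx0, -⟩ := hZ.normal
  have hp0 : 0 < Z.card := hZ.card_pos
  have hform := cycle_log (cyc_per hZ hx0) hN1' (fun j => (hZN _ (hcl x0 hx0 j)).1)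
  have hlow := pair_lower hd.hA hd.hA' hd.hB hd.hB' hpair hp0 hpq (r := od Z.card x0)
  have hpr : (Z.card : ℝ) < q1 := by exact_mod_cast hpq
  have hDr : (q1 : ℝ) * 2 ^ P ≤ 2 ^ (t0 + 1) * D := by exact_mod_cast hD
  have hP : (0 : ℝ) < 2 ^ P := by positivity
  have h1 : 2 ^ P * |(Z.card : ℝ) * Real.log 2 - od Z.card x0 * Real.log 3| < 2 ^ P * (q1 / (2 * N)) := by
    apply mul_lt_mul_of_pos_left _ hP
    exact lt_of_le_of_lt hform (div_lt_div_of_pos_right hpr (by positivity))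
  have h2 : (D : ℝ) < 2 ^ P * (q1 / (2 * N)) := lt_of_le_of_lt hlow h1
  rw [mul_div_assoc', lt_div_iff₀ (by positivity)] at h2
  have h3 : (2 : ℝ) ^ (t0 + 1) * D ≤ 2 * N * D := mul_le_mul_of_nonneg_right h2N (Nat.cast_nonneg _)
  linarith

end Pool.Agent.J6H8.Cls
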