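import Mathlib
import Pool.Agent.J6H8.Osc.Fin
import Pool.Agent.J6H8.Cls.Medium
import Pool.Agent.J6H8.Cls.Data
import Pool.Agent.J6H8.Cls.Meas

set_option autoImplicit false

/-!
No cycle inside a window `[N, 4 N]` with `N ≥ 2 ^ 5000`.
-/

namespace Pool.Agent.J6H8.Cls

open Finset Pool.Agent.H319R2 Pool.Agent.H547R3 Pool.Agent.J6H8.Osc

theorem conv485 : |((485 : ℕ) : ℝ) * (Real.log 2 / Real.log 3) - ((306 : ℤ) : ℝ)| ≤ 1 / ((485 : ℕ) : ℝ) := by
  have h1 := data.ha
  have h2 := data.ha'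
  have h3 : ((na : ℕ) : ℝ) * 485 * 485 ≥ 148409 * 2 ^ 64 := by
    have : na * 485 * 485 ≥ 148409 * 2 ^ 64 := by decide +kernel
    exact_mod_cast this
  have h4 : (((na : ℕ) : ℝ) + 1) * 485 * 485 ≤ (306 * 485 + 1) * 2 ^ 64 := by
    have : (na + 1) * 485 * 485 ≤ (306 * 485 + 1) * 2 ^ 64 := by decide +kernel
    exact_mod_cast this
  obtain ⟨α, hα⟩ : ∃ α, α = Real.log 2 / Real.log 3 := ⟨_, rfl⟩
  rw [← hα] at h1 h2 ⊢
  push_cast at h1 h2 ⊢
  rw [abs_le]
  constructor
  · linarith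
  · linarith

theorem cop485 : IsCoprime (306 : ℤ) ((485 : ℕ) : ℤ) := by
  rw [Int.isCoprime_iff_gcd_eq_one]; norm_num

/-- the size of the cycle -/
theorem size_large {Z : Finset ℤ} (hZ : IsCycle Z) {N y : ℝ} (hy : y = Real.log N) (hy0 : 3465 ≤ y)
    (hN0 : 0 < N)
    (hyN : y / N ≤ 1 / 1000000)
    (hZN : ∀ x ∈ Z, N ≤ |(x : ℝ)| ∧ |(x : ℝ)| ≤ 4 * N) :
    Real.log Z.card ≤ 101 + 0.2791 * y := by
  have hl2 : 0 < Real.log 2 := Real.log_pos (by norm_num)
  have hl3 : 0 < Real.log 3 := Real.log_pos (by norm_num)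
  have hl2b := Real.log_two_gt_d9
  have hl2c := Real.log_two_lt_d9
  have hN1 : 1 ≤ N := by
    by_contra hc
    push Not at hc
    have : Real.log N < 0 := Real.log_neg hN0 hc
    linarith
  have hlog8 : Real.log (8 * N) = 3 * Real.log 2 + y := by
    rw [Real.log_mul (by norm_num) hN0.ne', show (8 : ℝ) = 2 ^ 3 by norm_num, Real.log_pow, hy]
    push_cast; ring
  have hlog80 : 0 ≤ Real.log (8 * N) := by rw [hlog8]; linarith
  obtain ⟨k, hk⟩ : ∃ k, k = ⌊Real.log (8 * N) / Real.log 2⌋₊ + 1 := ⟨_, rfl⟩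
  have hkup : (k : ℝ) ≤ Real.log (8 * N) / Real.log 2 + 1 := by
    rw [hk]; push_cast
    have := Nat.floor_le (show 0 ≤ Real.log (8 * N) / Real.log 2 by positivity)
    linarith
  have hk1 : 2 * (4 * N) < 2 ^ k := by
    have h1 : Real.log (8 * N) / Real.log 2 < k := by
      rw [hk]; push_cast
      exact Nat.lt_floor_add_one _
    rw [div_lt_iff₀ hl2, ← Real.log_pow] at h1
    have := (Real.log_lt_log_iff (by positivity) (by positivity)).1 h1
    linarith
  have hk2 : (k : ℝ) * Real.log 2 ≤ y + 4 * Real.log 2 := by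
    have h1 : (k : ℝ) * Real.log 2 ≤ (Real.log (8 * N) / Real.log 2 + 1) * Real.log 2 :=
      mul_le_mul_of_nonneg_right hkup hl2.le
    rw [add_mul, div_mul_cancel₀ _ hl2.ne', hlog8] at h1
    linarith
  have hk3 : (k : ℝ) ≤ 2 * y := by
    have h1 : (k : ℝ) * 0.6931 ≤ k * Real.log 2 := mul_le_mul_of_nonneg_left (by linarith) (Nat.cast_nonneg _)
    linarith
  have hτ : (0 : ℝ) < 1 / ((333 : ℕ) : ℝ) := by norm_num
  have hkN : (k : ℝ) / (2 * N) ≤ 1 / ((333 : ℕ) : ℝ) := by
    have h1 : (k : ℝ) / (2 * N) ≤ 2 * y / (2 * N) := div_le_div_of_nonneg_right hk3 (by positivity)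
    have h2 : 2 * y / (2 * N) = y / N := by field_simp
    rw [h2] at h1
    refine (h1.trans hyN).trans (by norm_num)
  have h1N : 1 / (2 * N) ≤ 1 / ((333 : ℕ) : ℝ) := by
    refine le_trans ?_ hkN
    apply div_le_div_of_nonneg_right _ (by positivity)
    rw [hk]; push_cast
    have : (0 : ℝ) ≤ (⌊Real.log (8 * N) / Real.log 2⌋₊ : ℝ) := Nat.cast_nonneg _
    linarith
  have hcl : ∀ x ∈ Z, ∀ j, T^[j] x ∈ Z := fun x hx j => hZ.closed hx j
  obtain ⟨K, hK⟩ : ∃ K, K = ⌊((k : ℝ) / 485 + 1) * 135.313⌋₊ := ⟨_, rfl⟩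
  have hcard := window_card (B := 4) (by norm_num) hτ hN1 hk1 hkN h1N hcl hZN K (by
    intro m
    have hδ : 0 ≤ Real.log 4 - Real.log 3 := by
      rw [log4_sub]; exact Real.log_nonneg (by norm_num)
    have h1 := V_card hδ hτ (q := 485) (by norm_num) cop485 conv485 k m
    rw [hK]
    apply Nat.le_floor
    refine h1.trans ?_
    have h2 : (Real.log 4 - Real.log 3 + 4 * (1 / ((333 : ℕ) : ℝ))) / Real.log 3 ≤ 0.27281 := by
      rw [div_le_iff₀ hl3, log4_sub]
      have h3 := log3_lb'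
      have h4 := log43_ub
      norm_num
      linarith
    have h3 : 2 * (((Real.log 4 - Real.log 3) / 2 + 2 * (1 / ((333 : ℕ) : ℝ))) / Real.log 3) =
        (Real.log 4 - Real.log 3 + 4 * (1 / ((333 : ℕ) : ℝ))) / Real.log 3 := by
      field_simp
      ring
    rw [h3]
    push_cast
    push_cast at h2
    apply mul_le_mul_of_nonneg_left _ (by positivity)
    linarith)
  have hfl : ⌊Real.log 4 / (1 / ((333 : ℕ) : ℝ))⌋₊ + 1 ≤ 462 := by
    have h0 : 0 ≤ Real.log 4 / (1 / ((333 : ℕ) : ℝ)) :=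
      div_nonneg (Real.log_nonneg (by norm_num)) hτ.le
    exact (Nat.floor_lt h0).2 hG333
  have hcard2 : (Z.card : ℝ) ≤ 2 ^ 9 * 2 ^ K := by
    have h1 : Z.card ≤ 2 ^ 9 * 2 ^ K := hcard.trans (Nat.mul_le_mul_right _ (hfl.trans (by norm_num)))
    exact_mod_cast h1
  have hp0 : (0 : ℝ) < Z.card := by exact_mod_cast hZ.card_pos
  have h5 := Real.log_le_log hp0 hcard2
  rw [← pow_add, Real.log_pow] at h5
  push_cast at h5
  have hKup : (K : ℝ) ≤ ((k : ℝ) / 485 + 1) * 135.313 := by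
    rw [hK]; exact Nat.floor_le (by positivity)
  have h6 : (K : ℝ) * Real.log 2 ≤ (((k : ℝ) / 485 + 1) * 135.313) * Real.log 2 :=
    mul_le_mul_of_nonneg_right hKup hl2.le
  have h7 : (((k : ℝ) / 485 + 1) * 135.313) * Real.log 2 =
      0.279 * (k * Real.log 2) - (0.279 - 135.313 / 485) * (k * Real.log 2) + 135.313 * Real.log 2 := by ring
  have h8 : 0 ≤ (k : ℝ) * Real.log 2 := by positivity
  have h9 : (0 : ℝ) ≤ (0.279 - 135.313 / 485) * (k * Real.log 2) := mul_nonneg (by norm_num) h8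
  linarith

/-- **The large range.** -/
theorem large {Z : Finset ℤ} (hZ : IsCycle Z) {x0 : ℤ} (hx0 : x0 ∈ Z) {N : ℝ}
    (hNdef : N = |(x0 : ℝ)|) (hlo : ∀ x ∈ Z, N ≤ |(x : ℝ)|) (hmax : ∀ x ∈ Z, |(x : ℝ)| ≤ 4 * N)
    (hNbig : (2 : ℝ) ^ 5000 ≤ N) : False := by
  classical
  have hl2 : 0 < Real.log 2 := Real.log_pos (by norm_num)
  have hl3 : 0 < Real.log 3 := Real.log_pos (by norm_num)
  have hl2b := Real.log_two_gt_d9
  have hl2c := Real.log_two_lt_d9
  have hl3a := log3_lb'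
  have hl3b := log3_ub'
  have t1 : 1 ≤ N := (one_le_pow₀ (by norm_num)).trans hNbig
  have hN0 : 0 < N := lt_of_lt_of_le one_pos t1
  obtain ⟨y, hy⟩ : ∃ y, y = Real.log N := ⟨_, rfl⟩
  have hy0 : 3465.7 ≤ y := by
    have h1 := Real.log_le_log (by positivity) hNbig
    rw [Real.log_pow] at h1
    push_cast at h1
    rw [hy]
    clear hNbig
    linarith
  clear hNbig
  have hyN : y ^ 3 / 6 ≤ N := by
    have h1 := Real.pow_div_factorial_le_exp (x := y) (by linarith) 3
    rw [hy, Real.exp_log hN0, ← hy] at h1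
    norm_num [Nat.factorial] at h1
    exact h1
  have hyN2 : 2000000 * y ≤ N := by
    refine le_trans ?_ hyN
    have h1 : (12000000 : ℝ) ≤ y ^ 2 := by
      have := pow_le_pow_left₀ (by norm_num) hy0 2
      refine le_trans (by norm_num) this
    have h2 := mul_le_mul_of_nonneg_right h1 (show 0 ≤ y by linarith)
    have h3 : y ^ 3 / 6 = y ^ 2 * y / 6 := by ring
    rw [h3]; linarith
  have hyN3 : y / N ≤ 1 / 1000000 := by
    rw [div_le_div_iff₀ hN0 (by norm_num)]
    linarith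
  have hN1000 : 1000 ≤ N := by linarith
  obtain ⟨w, hwdef⟩ : ∃ w : ℝ, w = 0.001 := ⟨_, rfl⟩
  have hw0 : 0 < w := by rw [hwdef]; norm_num
  obtain ⟨W, hW⟩ : ∃ W, W = Real.exp w := ⟨_, rfl⟩
  have hlogW : Real.log W = w := by rw [hW, Real.log_exp]
  have hW1 : 1 ≤ W := by rw [hW]; exact Real.one_le_exp hw0.le
  have hW0 : 0 < W := by linarith
  have hW2 : W ≤ 1.002 := by
    rw [hW, hwdef]
    have := Real.exp_bound' (x := 0.001) (by norm_num) (by norm_num) (n := 2) (by norm_num)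
    refine this.trans ?_
    norm_num [sum_range_succ, Nat.factorial]
  have hclosed : ∀ x ∈ Z, T x ∈ Z := fun x hx => by simpa using hZ.closed hx 1
  -- the size of the cycle
  obtain ⟨p, hp⟩ : ∃ p, p = Z.card := ⟨_, rfl⟩
  have hp0 : 0 < p := by rw [hp]; exact hZ.card_pos
  have hpr : (0 : ℝ) < p := by exact_mod_cast hp0
  have hper : T^[p] x0 = x0 := by rw [hp]; exact cyc_per hZ hx0
  have hplog : Real.log p ≤ 101 + 0.2791 * y := by
    rw [hp]
    exact size_large hZ hy (by linarith) hN0 hyN3 (fun x hx => ⟨hlo x hx, hmax x hx⟩)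
  have hpN1 : (p : ℝ) / N ≤ w / 8 := by
    rw [div_le_iff₀ hN0, hwdef]
    have h1 : Real.log ((2 : ℝ) ^ 13 * p) ≤ Real.log N := by
      rw [Real.log_mul (by norm_num) hpr.ne', Real.log_pow, ← hy]
      push_cast
      linarith
    have h2 := (Real.log_le_log_iff (by positivity) hN0).1 h1
    norm_num at h2 ⊢
    linarith
  have hp2 : 3 * (p : ℝ) ^ 2 < N := by
    have h1 : Real.log (3 * (p : ℝ) ^ 2) < Real.log N := by
      rw [Real.log_mul (by norm_num) (by positivity), Real.log_pow, ← hy]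
      push_cast
      linarith
    exact (Real.log_lt_log_iff (by positivity) hN0).1 h1
  have hlo' : ∀ j, N ≤ |((T^[j] x0 : ℤ) : ℝ)| := fun j => hlo _ (hZ.closed hx0 j)
  have hhi' : ∀ j, |((T^[j] x0 : ℤ) : ℝ)| ≤ 4 * N := fun j => hmax _ (hZ.closed hx0 j)
  have hform0 := cycle_log hper t1 hlo'
  -- coprime representation
  obtain ⟨o, ho⟩ : ∃ o, o = od p x0 := ⟨_, rfl⟩
  rw [← ho] at hform0
  have hop : o ≤ p := by rw [ho]; exact od_le p x0
  obtain ⟨g, hg⟩ : ∃ g, g = Nat.gcd p o := ⟨_, rfl⟩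
  have hg0 : 0 < g := by rw [hg]; exact Nat.gcd_pos_of_pos_left _ hp0
  have hgr : (0 : ℝ) < g := by exact_mod_cast hg0
  obtain ⟨q, hq⟩ : ∃ q, q = p / g := ⟨_, rfl⟩
  obtain ⟨r, hr⟩ : ∃ r, r = o / g := ⟨_, rfl⟩
  have hpg : p = g * q := by rw [hq, hg]; exact (Nat.mul_div_cancel' (Nat.gcd_dvd_left p o)).symm
  have hog : o = g * r := by rw [hr, hg]; exact (Nat.mul_div_cancel' (Nat.gcd_dvd_right p o)).symm
  have hq0 : 0 < q := by
    rcases Nat.eq_zero_or_pos q with h | h
    · rw [h, mul_zero] at hpg; omega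
    · exact h
  have hqr : (0 : ℝ) < q := by exact_mod_cast hq0
  have hqp : q ≤ p := by rw [hpg]; exact Nat.le_mul_of_pos_left q hg0
  have hqp' : (q : ℝ) ≤ p := by exact_mod_cast hqp
  have hcopn : Nat.Coprime q r := by
    rw [hq, hr, hg]
    exact Nat.coprime_div_gcd_div_gcd (by rw [← hg]; exact hg0)
  have hcop : IsCoprime (r : ℤ) (q : ℤ) := by
    exact (Nat.isCoprime_iff_coprime.2 hcopn).symm
  have hform : |(q : ℝ) * Real.log 2 - r * Real.log 3| ≤ q / (2 * N) := by
    have e1 : (p : ℝ) * Real.log 2 - o * Real.log 3 = g * ((q : ℝ) * Real.log 2 - r * Real.log 3) := by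
      rw [hpg, hog]; push_cast; ring
    rw [e1, abs_mul, abs_of_pos hgr, hpg] at hform0
    push_cast at hform0
    rw [mul_div_assoc] at hform0
    exact le_of_mul_le_mul_left hform0 hgr
  -- q is large
  have hq25 := meas hq0 hN1000 hform
  have hlogq : 4 * y ≤ 491 * Real.log 2 + 25 * Real.log q := by
    have h1 := Real.log_le_log (by positivity) hq25
    rw [Real.log_mul (by positivity) (by positivity), Real.log_pow, Real.log_pow, Real.log_pow, ← hy] at h1
    push_cast at h1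
    linarith
  have hqbig : 2 ^ 18 ≤ (q : ℝ) := by
    have h1 : Real.log ((2 : ℝ) ^ 18) ≤ Real.log q := by
      rw [Real.log_pow]; push_cast; linarith
    exact (Real.log_le_log_iff (by positivity) hqr).1 h1
  -- the window set
  have hlogM : Real.log (4 * N) = Real.log 4 + Real.log N := Real.log_mul (by norm_num) hN0.ne'
  have hlog2N : Real.log (2 * N) = Real.log 2 + Real.log N := Real.log_mul (by norm_num) hN0.ne'
  have hlog4 : Real.log 4 = 2 * Real.log 2 := by
    rw [show (4 : ℝ) = 2 ^ 2 by norm_num, Real.log_pow]; push_cast; ring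
  have hsep : 3 * ((p : ℝ) / N) < Real.log 3 / q := by
    rw [← mul_div_assoc, div_lt_div_iff₀ hN0 hqr]
    have h1 : 3 * (p : ℝ) * q ≤ 3 * (p : ℝ) ^ 2 := by
      calc 3 * (p : ℝ) * q ≤ 3 * p * p := mul_le_mul_of_nonneg_left hqp' (by positivity)
        _ = 3 * (p : ℝ) ^ 2 := by ring
    have h2 : 1 * N ≤ Real.log 3 * N := mul_le_mul_of_nonneg_right (by linarith) hN0.le
    linarith
  have hpN0 : 0 < (p : ℝ) / N := by positivity
  obtain ⟨S, hS1, hS2, hS3, hS4⟩ := exists_S (α := Real.log (2 * N)) (ω := w / 2) t1 hlo' hhi'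
    (by rw [hlog2N, hwdef]; linarith) (by rw [hlog2N, hlogM]; linarith) hq0 hqp hcop hform (by linarith)
  have hSZ : S ⊆ Z := by
    intro x hx
    obtain ⟨j, rfl⟩ := hS1 x hx
    exact hZ.closed hx0 j
  -- number of members
  have hwq : 192 ≤ w * q := by
    have h1 : w * 2 ^ 18 ≤ w * q := mul_le_mul_of_nonneg_left hqbig hw0.le
    refine le_trans ?_ h1
    rw [hwdef]; norm_num
  have hScard : w * q / 16 ≤ S.card := by
    refine le_trans ?_ hS4
    have h1 : (w / 2 - 2 * ((p : ℝ) / N)) * q / Real.log 3 ≥ w / 4 * q / 2 := by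
      have h2 : w / 4 ≤ w / 2 - 2 * ((p : ℝ) / N) := by linarith
      have h3 : Real.log 3 ≤ 2 := by linarith
      have h4 : w / 4 * q ≤ (w / 2 - 2 * ((p : ℝ) / N)) * q := mul_le_mul_of_nonneg_right h2 hqr.le
      calc w / 4 * q / 2 ≤ w / 4 * q / Real.log 3 :=
            div_le_div_of_nonneg_left (by positivity) hl3 h3
        _ ≤ _ := div_le_div_of_nonneg_right h4 hl3.le
    linarith
  have hS12 : 12 ≤ S.card := by
    have : (12 : ℝ) ≤ S.card := by linarith
    exact_mod_cast this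
  -- the number of digits
  obtain ⟨n, hn⟩ : ∃ n, n = ⌊Real.log (16 * (4 * N)) / Real.log 2⌋₊ + 1 := ⟨_, rfl⟩
  have hlog16e : Real.log (16 * (4 * N)) = 6 * Real.log 2 + y := by
    rw [show 16 * (4 * N) = 2 ^ 6 * N by ring, Real.log_mul (by norm_num) hN0.ne', Real.log_pow, hy]
    push_cast; ring
  have hlog16 : 0 ≤ Real.log (16 * (4 * N)) := by rw [hlog16e]; linarith
  have hnup : (n : ℝ) ≤ Real.log (16 * (4 * N)) / Real.log 2 + 1 := by
    rw [hn]; push_cast
    have := Nat.floor_le (show 0 ≤ Real.log (16 * (4 * N)) / Real.log 2 by positivity)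
    linarith
  have hnup2 : (n : ℝ) ≤ y / Real.log 2 + 7 := by
    rw [hlog16e] at hnup
    have e : (6 * Real.log 2 + y) / Real.log 2 + 1 = y / Real.log 2 + 7 := by
      field_simp; ring
    linarith
  have hdiv : y / Real.log 2 ≤ 1.44270 * y := by
    rw [div_le_iff₀ hl2]
    have h1 : 1 ≤ 1.44270 * Real.log 2 := by linarith
    have h2 := mul_le_mul_of_nonneg_left h1 (show 0 ≤ y by linarith)
    linarith
  have hbig : 16 * (4 * N) < 2 ^ n := by
    have h1 : Real.log (16 * (4 * N)) / Real.log 2 < n := by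
      rw [hn]; push_cast
      exact Nat.lt_floor_add_one _
    rw [div_lt_iff₀ hl2, ← Real.log_pow] at h1
    exact (Real.log_lt_log_iff (by positivity) (by positivity)).1 h1
  obtain ⟨R, hR⟩ : ∃ R, R = p + n + 4 := ⟨_, rfl⟩
  have hn4 : ((n : ℝ) + 4) / N ≤ 1 / 500000 := by
    rw [div_le_div_iff₀ hN0 (by norm_num)]
    linarith
  have hRN : (R : ℝ) / N ≤ w / 2 := by
    have h2 : (R : ℝ) / N = p / N + (n + 4) / N := by
      rw [hR]; push_cast; ring
    rw [h2]
    have : (1 : ℝ) / 500000 ≤ w / 4 := by rw [hwdef]; norm_num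
    linarith
  have hWN : W * N ≤ 1.002 * N := mul_le_mul_of_nonneg_right hW2 hN0.le
  -- iterates
  have hiter : ∀ x ∈ S, ∀ v, |Real.log |((T^[v] x : ℤ) : ℝ)| - Real.log |(x : ℝ)| + v * Real.log 2 -
      od v x * Real.log 3| ≤ v / (2 * N) := by
    intro x hx v
    have h1 := log_iter t1 (fun j => hlo _ (hZ.closed (hSZ hx) j)) v
    refine h1.trans ?_
    rw [mul_one_div]
    apply div_le_div_of_nonneg_right _ (by positivity)
    exact_mod_cast od_le v x
  have hpos : ∀ x ∈ S, ∀ v, 0 < |((T^[v] x : ℤ) : ℝ)| := fun x hx v =>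
    lt_of_lt_of_le hN0 (hlo _ (hZ.closed (hSZ hx) v))
  have hset : Setting Z S N (4 * N) W R := by
    refine ⟨hclosed, hSZ, hlo, hmax, ?_, t1, hW1, ?_, ?_, ?_⟩
    · intro v hv x hx y hy hod
      have h1 := hiter x hx v
      have h2 := hiter y hy v
      rw [hod, abs_le] at h1
      rw [abs_le] at h2
      have h3 := hS2 x hx
      have h4 := hS2 y hy
      have h5 : (v : ℝ) / (2 * N) ≤ w / 4 := by
        have : (v : ℝ) ≤ R := by exact_mod_cast hv
        have h6 : (v : ℝ) / N ≤ w / 2 := (div_le_div_of_nonneg_right this hN0.le).trans hRN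
        have h7 : (v : ℝ) / (2 * N) = v / N / 2 := by field_simp
        rw [h7]; linarith
      have h8 : Real.log |((T^[v] x : ℤ) : ℝ)| ≤ Real.log (W * |((T^[v] y : ℤ) : ℝ)|) := by
        rw [Real.log_mul hW0.ne' (hpos y hy v).ne', hlogW]
        linarith [h1.2, h2.1, h3.1, h3.2, h4.1, h4.2]
      exact (Real.log_le_log_iff (hpos x hx v) (mul_pos hW0 (hpos y hy v))).1 h8
    · have e : W * (2 * (4 * N) + 1) = 8 * (W * N) + W := by ring
      rw [e]; linarith
    · have e : W * (4 * (4 * N) + 5) = 16 * (W * N) + 5 * W := by ring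
      rw [e]; linarith
    · have e : W * (2 * (4 * N) + 1) = 8 * (W * N) + W := by ring
      rw [e]; linarith
  have hne_sep : ∀ x ∈ S, ∀ y ∈ S, x ≠ y → (p : ℝ) / N < abs (Real.log |(x : ℝ)| - Real.log |(y : ℝ)|) := by
    intro x hx y hy hne
    refine lt_of_lt_of_le ?_ (hS3 x hx y hy hne)
    linarith
  have hord : ∀ v ≤ p, ∀ x ∈ S, ∀ y ∈ S, od v x = od v y → |x| < |y| → |T^[v] x| < |T^[v] y| := by
    intro v hv x hx y hy hod hlt
    have h1 := hiter x hx v
    have h2 := hiter y hy v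
    rw [hod, abs_le] at h1
    rw [abs_le] at h2
    have h3 : (v : ℝ) / (2 * N) ≤ p / N / 2 := by
      have : (v : ℝ) ≤ p := by exact_mod_cast hv
      have h6 : (v : ℝ) / N ≤ p / N := div_le_div_of_nonneg_right this hN0.le
      have h7 : (v : ℝ) / (2 * N) = v / N / 2 := by field_simp
      rw [h7]; linarith
    have hne : x ≠ y := by rintro rfl; exact lt_irrefl _ hlt
    have h4 := hne_sep x hx y hy hne
    have hltr : |(x : ℝ)| < |(y : ℝ)| := by exact_mod_cast hlt
    have hx0' : 0 < |(x : ℝ)| := lt_of_lt_of_le hN0 (hlo x (hSZ hx))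
    have h5 : Real.log |(x : ℝ)| < Real.log |(y : ℝ)| := Real.log_lt_log hx0' hltr
    rw [abs_of_neg (by linarith)] at h4
    have h8 : Real.log |((T^[v] x : ℤ) : ℝ)| < Real.log |((T^[v] y : ℤ) : ℝ)| := by
      linarith [h1.2, h2.1]
    have h9 := (Real.log_lt_log_iff (hpos x hx v) (hpos y hy v)).1 h8
    exact_mod_cast h9
  have hinj : ∀ x ∈ S, ∀ y ∈ S, |x| = |y| → x = y := by
    intro x hx y hy hxy
    by_contra hne
    have h4 := hne_sep x hx y hy hne
    have : |(x : ℝ)| = |(y : ℝ)| := by exact_mod_cast hxy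
    rw [this, sub_self, abs_zero] at h4
    linarith
  -- the least even element
  have hbig2 : ∀ x ∈ Z, 2 ≤ |x| := by
    intro x hx
    have h1 := hlo x hx
    have h2 : (2 : ℝ) ≤ |(x : ℝ)| := by linarith
    exact_mod_cast h2
  obtain ⟨ze, hze, hzee⟩ := exists_even hZ hbig2
  obtain ⟨z0, hz0, hz0min⟩ := exists_min_image (Z.filter fun z => z % 2 = 0) (fun z => |z|)
    ⟨ze, mem_filter.2 ⟨hze, hzee⟩⟩
  rw [mem_filter] at hz0
  have hreach : ∀ x ∈ S, ∃ v ≤ p, T^[v] x = z0 := by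
    intro x hx
    obtain ⟨j, hj⟩ := hZ.back (hSZ hx) hz0.1
    refine ⟨j % p, (Nat.mod_lt _ hp0).le, ?_⟩
    have hxp : Function.IsPeriodicPt T p x := by
      have := cyc_per hZ (hSZ hx)
      rw [← hp] at this
      exact this
    rw [hxp.iterate_mod_apply]
    exact hj
  have hcount := hset.count hS12 n (by rw [hn]; omega) (by rw [hR]; omega) hbig (P := p)
    (by rw [hR]; omega) hord hinj hz0.2 (fun z hz hze => hz0min z (mem_filter.2 ⟨hz, hze⟩)) hreach
  -- upper bound for the number of mixed times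
  obtain ⟨x1, hx1⟩ : S.Nonempty := card_pos.1 (by omega)
  have hMV := MV_card hset (n := n) (by rw [hR]; omega) hx1 (Q := 485) (by norm_num) cop485 conv485
    (d := 0.1320) (by norm_num) (by
    rw [hlogW]
    have h1 : (2 * (4 * N) + 1) / 3 = 4 / 3 * (2 * N) * (1 + 1 / (8 * N)) := by
      field_simp
      ring
    have h2 : Real.log ((2 * (4 * N) + 1) / 3) ≤ Real.log (4 / 3) + Real.log (2 * N) + 1 / (8 * N) := by
      rw [h1, Real.log_mul (by positivity) (by positivity), Real.log_mul (by norm_num) (by positivity)]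
      have h5 := Real.log_le_sub_one_of_pos (show 0 < 1 + 1 / (8 * N) by positivity)
      linarith
    have h3 : (n : ℝ) / (2 * N) + 1 / (8 * N) ≤ 1 / 500000 := by
      refine le_trans ?_ hn4
      have e : (n : ℝ) / (2 * N) + 1 / (8 * N) = (n / 2 + 1 / 8) / N := by field_simp
      rw [e]
      apply div_le_div_of_nonneg_right _ hN0.le
      have : (0 : ℝ) ≤ n := Nat.cast_nonneg _
      linarith
    have h43 := log43_ub
    have h6 : 0 < 1 / (8 * N) := by positivity
    rw [hwdef]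
    linarith)
  -- conclusion
  have hlog16000 : -(14 * Real.log 2) ≤ Real.log (w / 16) := by
    have h1 : Real.log ((2 : ℝ) ^ 14)⁻¹ ≤ Real.log (w / 16) := by
      apply Real.log_le_log (by positivity)
      rw [hwdef]; norm_num
    rw [Real.log_inv, Real.log_pow] at h1
    push_cast at h1
    exact h1
  have hlogS : Real.log q + Real.log (w / 16) ≤ Real.log S.card := by
    rw [← Real.log_mul hqr.ne' (by positivity)]
    apply Real.log_le_log (by positivity)
    calc (q : ℝ) * (w / 16) = w * q / 16 := by ring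
      _ ≤ _ := hScard
  have hMV2 : ((MV S n).card : ℝ) ≤ 0.27019 * n + 131.04 := by
    refine hMV.trans ?_
    push_cast
    have : (0 : ℝ) ≤ n := Nat.cast_nonneg _
    linarith
  linarith

end Pool.Agent.J6H8.Cls
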