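import Mathlib

set_option autoImplicit false

/-!
Enclosures of `log (4/3)` and `log (9/8)` by integers.
-/

namespace Pool.Agent.J6H8.Cls

open Finset

/-- fixed point partial sums of `log ((x + 1) / (x - 1))` -/
def ser (x P : ℕ) : ℕ → ℕ
  | 0 => 0
  | k + 1 => ser x P k + 2 ^ (P + 1) / ((2 * k + 1) * x ^ (2 * k + 1))

/-- the real terms -/
noncomputable def tm (x : ℕ) (k : ℕ) : ℝ := 2 * (1 / (2 * (k : ℝ) + 1)) * (1 / (x : ℝ)) ^ (2 * k + 1)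

theorem tm_nonneg (x k : ℕ) : 0 ≤ tm x k := by unfold tm; positivity

theorem tm_hasSum {x : ℕ} (hx : 2 ≤ x) :
    HasSum (tm x) (Real.log (1 + 1 / (x : ℝ)) - Real.log (1 - 1 / (x : ℝ))) := by
  have hx' : (2 : ℝ) ≤ x := by exact_mod_cast hx
  have h : |1 / (x : ℝ)| < 1 := by
    rw [abs_of_nonneg (by positivity), div_lt_one (by positivity)]
    linarith
  exact Real.hasSum_log_sub_log_of_abs_lt_one h

theorem ser_bounds (x P : ℕ) (hx : 2 ≤ x) (K : ℕ) :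
    (ser x P K : ℝ) ≤ 2 ^ P * ∑ k ∈ range K, tm x k ∧
    2 ^ P * ∑ k ∈ range K, tm x k ≤ ser x P K + K := by
  induction K with
  | zero => simp [ser]
  | succ K ih =>
    have hx' : (2 : ℝ) ≤ x := by exact_mod_cast hx
    rw [sum_range_succ, mul_add, ser]
    have e : (2 : ℝ) ^ P * tm x K = ((2 ^ (P + 1) : ℕ) : ℝ) / (((2 * K + 1) * x ^ (2 * K + 1) : ℕ) : ℝ) := by
      unfold tm
      push_cast
      rw [pow_succ (2 : ℝ) P, one_div_pow]
      field_simp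
    rw [e]
    have h1 := Nat.div_mul_le_self (2 ^ (P + 1)) ((2 * K + 1) * x ^ (2 * K + 1))
    have hpos : 0 < (2 * K + 1) * x ^ (2 * K + 1) := by positivity
    have h2 := Nat.lt_div_mul_add (a := 2 ^ (P + 1)) hpos
    have hposr : (0 : ℝ) < (((2 * K + 1) * x ^ (2 * K + 1) : ℕ) : ℝ) := by exact_mod_cast hpos
    have h3 : (((2 ^ (P + 1) / ((2 * K + 1) * x ^ (2 * K + 1)) : ℕ)) : ℝ) ≤
        ((2 ^ (P + 1) : ℕ) : ℝ) / (((2 * K + 1) * x ^ (2 * K + 1) : ℕ) : ℝ) := by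
      rw [le_div_iff₀ hposr]
      exact_mod_cast h1
    have h4 : ((2 ^ (P + 1) : ℕ) : ℝ) / (((2 * K + 1) * x ^ (2 * K + 1) : ℕ) : ℝ) ≤
        (((2 ^ (P + 1) / ((2 * K + 1) * x ^ (2 * K + 1)) : ℕ)) : ℝ) + 1 := by
      rw [div_le_iff₀ hposr]
      have : 2 ^ (P + 1) ≤ (2 ^ (P + 1) / ((2 * K + 1) * x ^ (2 * K + 1)) + 1) *
          ((2 * K + 1) * x ^ (2 * K + 1)) := by
        rw [add_mul, one_mul]; exact h2.le
      exact_mod_cast this
    push_cast at h3 h4 ⊢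
    constructor <;> linarith [ih.1, ih.2]

theorem tail_bound {x : ℕ} (hx : 2 ≤ x) (K : ℕ) :
    Real.log (1 + 1 / (x : ℝ)) - Real.log (1 - 1 / (x : ℝ)) ≤
      ∑ k ∈ range K, tm x k + 4 * (1 / (x : ℝ)) ^ (2 * K + 1) := by
  have hx' : (2 : ℝ) ≤ x := by exact_mod_cast hx
  have hs := tm_hasSum hx
  have h1 := hs.summable.sum_add_tsum_nat_add K
  rw [hs.tsum_eq] at h1
  rw [← h1]
  apply add_le_add_right
  have hy0 : 0 ≤ 1 / (x : ℝ) := by positivity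
  have hy2 : (1 / (x : ℝ)) ≤ 1 / 2 := by
    apply div_le_div_of_nonneg_left (by norm_num) (by norm_num) hx'
  have hgeo : HasSum (fun k : ℕ => 2 * (1 / (x : ℝ)) ^ (2 * K + 1) * (1 / 4 : ℝ) ^ k)
      (2 * (1 / (x : ℝ)) ^ (2 * K + 1) * (1 - 1 / 4)⁻¹) :=
    (hasSum_geometric_of_lt_one (by norm_num) (by norm_num)).mul_left _
  have hle : ∀ k : ℕ, tm x (k + K) ≤ 2 * (1 / (x : ℝ)) ^ (2 * K + 1) * (1 / 4 : ℝ) ^ k := by
    intro k
    unfold tm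
    have e : (1 / (x : ℝ)) ^ (2 * (k + K) + 1) = (1 / (x : ℝ)) ^ (2 * K + 1) * ((1 / (x : ℝ)) ^ 2) ^ k := by
      rw [← pow_mul, ← pow_add]; congr 1; ring
    rw [e]
    have h2 : ((1 / (x : ℝ)) ^ 2) ^ k ≤ (1 / 4 : ℝ) ^ k := by
      apply pow_le_pow_left₀ (by positivity)
      calc (1 / (x : ℝ)) ^ 2 ≤ (1 / 2) ^ 2 := pow_le_pow_left₀ hy0 hy2 2
        _ = 1 / 4 := by norm_num
    have h3 : 2 * (1 / (2 * ((k + K : ℕ) : ℝ) + 1)) ≤ 2 := by
      have : 1 / (2 * ((k + K : ℕ) : ℝ) + 1) ≤ 1 := by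
        rw [div_le_one (by positivity)]
        have : (0 : ℝ) ≤ ((k + K : ℕ) : ℝ) := Nat.cast_nonneg _
        linarith
      linarith
    calc 2 * (1 / (2 * ((k + K : ℕ) : ℝ) + 1)) * ((1 / (x : ℝ)) ^ (2 * K + 1) * ((1 / (x : ℝ)) ^ 2) ^ k)
        ≤ 2 * ((1 / (x : ℝ)) ^ (2 * K + 1) * (1 / 4 : ℝ) ^ k) := by
          apply mul_le_mul h3 _ (by positivity) (by norm_num)
          exact mul_le_mul_of_nonneg_left h2 (by positivity)
      _ = _ := by ring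
  have h4 := (hs.summable.comp_injective (add_left_injective K)).tsum_le_tsum hle hgeo.summable
  rw [hgeo.tsum_eq] at h4
  refine h4.trans ?_
  have h5 : 0 ≤ (1 / (x : ℝ)) ^ (2 * K + 1) := by positivity
  have h6 : (1 - 1 / 4 : ℝ)⁻¹ = 4 / 3 := by norm_num
  rw [h6]
  linarith

/-- **Enclosure.** -/
theorem enclose {x P K : ℕ} (hx : 2 ≤ x) (hK : 2 ^ (P + 2) ≤ x ^ (2 * K + 1)) :
    (ser x P K : ℝ) ≤ 2 ^ P * Real.log (((x : ℝ) + 1) / (x - 1)) ∧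
    2 ^ P * Real.log (((x : ℝ) + 1) / (x - 1)) ≤ ser x P K + K + 1 := by
  have hx' : (2 : ℝ) ≤ x := by exact_mod_cast hx
  have e : Real.log (((x : ℝ) + 1) / (x - 1)) = Real.log (1 + 1 / (x : ℝ)) - Real.log (1 - 1 / (x : ℝ)) := by
    have hx0 : (x : ℝ) ≠ 0 := by positivity
    have hx1 : (x : ℝ) - 1 ≠ 0 := by linarith
    have hx2 : (x : ℝ) + 1 ≠ 0 := by positivity
    have h1 : (1 : ℝ) + 1 / x = (x + 1) / x := by field_simp
    have h2 : (1 : ℝ) - 1 / x = (x - 1) / x := by field_simp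
    rw [h1, h2, Real.log_div hx2 hx1, Real.log_div hx2 hx0, Real.log_div hx1 hx0]
    ring
  obtain ⟨h1, h2⟩ := ser_bounds x P hx K
  have h3 := tail_bound hx K
  have h4 : ∑ k ∈ range K, tm x k ≤ Real.log (1 + 1 / (x : ℝ)) - Real.log (1 - 1 / (x : ℝ)) :=
    sum_le_hasSum (range K) (fun i _ => tm_nonneg x i) (tm_hasSum hx)
  rw [e]
  have hP : (0 : ℝ) < 2 ^ P := by positivity
  constructor
  · exact h1.trans (mul_le_mul_of_nonneg_left h4 hP.le)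
  · have h5 : (2 : ℝ) ^ P * (4 * (1 / (x : ℝ)) ^ (2 * K + 1)) ≤ 1 := by
      have h6 : (2 : ℝ) ^ (P + 2) ≤ (x : ℝ) ^ (2 * K + 1) := by exact_mod_cast hK
      rw [one_div, inv_pow, ← mul_assoc, ← div_eq_mul_inv, div_le_one (by positivity)]
      calc (2 : ℝ) ^ P * 4 = 2 ^ (P + 2) := by rw [pow_add]; norm_num
        _ ≤ _ := h6
    have h7 := mul_le_mul_of_nonneg_left h3 hP.le
    rw [mul_add] at h7
    linarith

end Pool.Agent.J6H8.Cls
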