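import Mathlib
import Pool.Agent.W42.Small
import Pool.Agent.J6H8.Cls.Dfs
import Pool.Agent.J6H8.Cls.Large

set_option autoImplicit false

/-!
The cycles of the 3x+1 map with oscillation at most 4.
-/

namespace Pool.Agent.J6H8.Cls

open Finset Pool.Agent.H319R2 Pool.Agent.H547R3

theorem isC0 : IsCycle {0} := ⟨0, 1, le_refl _, by decide, by decide⟩

theorem isC1 : IsCycle {1, 2} := ⟨1, 2, by norm_num, by decide, by decide⟩

theorem isCm1 : IsCycle {-1} := ⟨-1, 1, le_refl _, by decide, by decide⟩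

theorem isCm5 : IsCycle {-5, -7, -10} := ⟨-5, 3, by norm_num, by decide, by decide⟩

theorem class4 {Z : Finset ℤ} (hZ : IsCycle Z) (hosc : ∀ x ∈ Z, ∀ y ∈ Z, |x| ≤ 4 * |y|) :
    Z = {0} ∨ Z = {-1} ∨ Z = {1, 2} ∨ Z = {-5, -7, -10} := by
  obtain ⟨x1, hx1, -⟩ := hZ.normal
  obtain ⟨x0, hx0, hmin⟩ := exists_min_image Z (fun x => |x|) ⟨x1, hx1⟩
  by_cases h0 : x0 = 0
  · left
    exact hZ.eq_of_mem isC0 hx0 (by rw [h0]; simp)
  have hloR : ∀ x ∈ Z, |(x0 : ℝ)| ≤ |(x : ℝ)| := fun x hx => by exact_mod_cast hmin x hx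
  have hhiR : ∀ x ∈ Z, |(x : ℝ)| ≤ 4 * |(x0 : ℝ)| := fun x hx => by exact_mod_cast hosc x hx x0 hx0
  rcases lt_or_ge |x0| (2 ^ 52) with hs | hs
  · have hsm := small (fun j => hmin _ (hZ.closed hx0 j)) (fun j => hosc _ (hZ.closed hx0 j) x0 hx0) hs
    rcases Pool.Agent.W42.Small.least h0 hsm (fun j => hmin _ (hZ.closed hx0 j)) with h | h | h | h
    · right; right; left
      exact hZ.eq_of_mem isC1 hx0 (by rw [h]; simp)
    · right; left
      exact hZ.eq_of_mem isCm1 hx0 (by rw [h]; simp)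
    · right; right; right
      exact hZ.eq_of_mem isCm5 hx0 (by rw [h]; simp)
    · exfalso
      have h1 : T^[8] x0 = -136 := by rw [h]; decide
      have h2 := hosc _ (hZ.closed hx0 8) x0 hx0
      rw [h1, h] at h2
      norm_num at h2
  · exfalso
    have hsR : (2 : ℝ) ^ 52 ≤ |(x0 : ℝ)| := by exact_mod_cast hs
    rcases lt_or_ge |(x0 : ℝ)| (2 ^ 5000) with hm | hm
    · exact middle hZ (fun x hx => ⟨hloR x hx, hhiR x hx⟩) hsR hm
    · exact large hZ hx0 rfl hloR hhiR hm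

theorem class4_iff (Z : Finset ℤ) : (IsCycle Z ∧ ∀ x ∈ Z, ∀ y ∈ Z, |x| ≤ 4 * |y|) ↔
    Z = {0} ∨ Z = {-1} ∨ Z = {1, 2} ∨ Z = {-5, -7, -10} := by
  constructor
  · rintro ⟨h1, h2⟩
    exact class4 h1 h2
  · rintro (rfl | rfl | rfl | rfl)
    · exact ⟨isC0, by decide⟩
    · exact ⟨isCm1, by decide⟩
    · exact ⟨isC1, by decide⟩
    · exact ⟨isCm5, by decide⟩

end Pool.Agent.J6H8.Cls
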